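import Mathlib
import Pool.Agent.TH673.VG.Crit
import Pool.Agent.TH673.VG.CritInd
import Pool.Agent.TH673.VG.Ind
import Pool.Agent.Y920.QB.Qs2

set_option autoImplicit false

/-! # Structures with additive quaternions and products of structures with two quaternions -/

namespace Pool.Agent.HP953.EH

open Pool.Agent.H315R3.ETC Pool.Agent.TH673.VG Pool.Agent.Y920.QB

/-- the quaternions lie in a group of exponent two in which `q` is additive -/
def AddQuat (S : QData) : Prop :=
  ∃ (B : Type) (_ : AddCommGroup B) (β : S.G → S.G → B), (∀ b : B, b + b = 0) ∧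
    (∀ a b c, β a (b * c) = β a b + β a c) ∧ ∀ a b c d, β a b = β c d ↔ S.q a b = S.q c d

section two

variable {T : QData} {B : Type} [AddCommGroup B] {β : T.G → T.G → B}

/-- the structure with at most two quaternions given by a homomorphism `l` -/
def two (T : QData) {B : Type} [AddCommGroup B] (β : T.G → T.G → B) (l : B →+ ZMod 2) : QData :=
  ⟨T.G, ZMod 2, T.neg, fun a b => l (β a b), 0⟩

theorem qone {S : QData} (h : IsQuat S) (a : S.G) : S.q a 1 = S.zero := by
  have := (h.qs3 a 1 1).1 rfl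
  rwa [one_mul] at this

theorem beta_one (hm : ∀ a b c, β a (b * c) = β a b + β a c) (a : T.G) : β a 1 = 0 := by
  have := hm a 1 1
  rw [mul_one] at this
  simpa using this

theorem beta_zero (h : IsQuat T) (hm : ∀ a b c, β a (b * c) = β a b + β a c)
    (hq : ∀ a b c d, β a b = β c d ↔ T.q a b = T.q c d) (a b : T.G) :
    β a b = 0 ↔ T.q a b = T.zero := by
  rw [← beta_one hm a, hq, qone h]

theorem z2 (x : ZMod 2) : x = 0 ∨ x = 1 := by
  revert x; decide

theorem two_quat (h : IsQuat T) (hm : ∀ a b c, β a (b * c) = β a b + β a c)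
    (hq : ∀ a b c d, β a b = β c d ↔ T.q a b = T.q c d) (l : B →+ ZMod 2) :
    IsQuat (two T β l) := by
  have hs : ∀ a b, β a b = β b a := fun a b => (hq _ _ _ _).2 (h.qs2 a b)
  have h1 : ∀ a, β a 1 = 0 := beta_one hm
  refine ⟨h.exp2, ?_, ?_, ?_, ?_⟩
  · intro (a : T.G)
    show l (β a (T.neg * a)) = 0
    rw [(beta_zero h hm hq _ _).2 (h.qs1 a), map_zero]
  · intro (a : T.G) (b : T.G)
    show l (β a b) = l (β b a)
    rw [hs]
  · intro (a : T.G) (b : T.G) (c : T.G)
    show l (β a b) = l (β a c) ↔ l (β a (b * c)) = 0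
    rw [hm, map_add]
    rcases z2 (l (β a b)) with e | e <;> rcases z2 (l (β a c)) with e' | e' <;> rw [e, e'] <;> decide
  · intro (a : T.G) (b : T.G) (c : T.G) (d : T.G) (e : l (β a b) = l (β c d))
    show ∃ x : T.G, l (β a b) = l (β a x) ∧ l (β c d) = l (β c x)
    rcases z2 (l (β a b)) with e1 | e1
    · exact ⟨1, by rw [h1, map_zero, e1], by rw [h1, map_zero, ← e, e1]⟩
    · have e2 : l (β c d) = 1 := by rw [← e, e1]
      rcases z2 (l (β c b)) with e3 | e3
      · rcases z2 (l (β a d)) with e4 | e4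
        · refine ⟨b * d, ?_, ?_⟩
          · rw [hm, map_add, e4, add_zero]
          · rw [hm, map_add, e3, zero_add]
        · exact ⟨d, by rw [e1, e4], rfl⟩
      · exact ⟨b, rfl, by rw [e2, e3]⟩

theorem two_values (l : B →+ ZMod 2) : TwoValues (two T β l) :=
  ⟨(1 : ZMod 2), fun a b => z2 (l (β a b))⟩

/-- embedding for a list of homomorphisms -/
theorem emb_list (h : IsQuat T) (hf : Finite T.G) (hm : ∀ a b c, β a (b * c) = β a b + β a c)
    (hq : ∀ a b c d, β a b = β c d ↔ T.q a b = T.q c d) (L : List (B →+ ZMod 2)) :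
    ∃ (S : QData) (ι : T.G →* S.G), ProdTwo S ∧ IsQuat S ∧ Finite S.G ∧
      Function.Injective ι ∧ ι T.neg = S.neg ∧
      ∀ a b c d, S.q (ι a) (ι b) = S.q (ι c) (ι d) ↔ ∀ l ∈ L, l (β a b) = l (β c d) := by
  induction L with
  | nil =>
    refine ⟨two T β 0, MonoidHom.id T.G, ProdTwo.base _ (two_quat h hm hq 0) hf (two_values 0),
      two_quat h hm hq 0, hf, Function.injective_id, rfl, ?_⟩
    intro a b c d
    constructor
    · intro _ l hl
      simp at hl
    · intro _
      rfl
  | cons l L ih =>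
    obtain ⟨S, ι, hP, hS, hfS, hi, hn, he⟩ := ih
    have hl : IsQuat (two T β l) := two_quat h hm hq l
    have hlf : Finite (two T β l).G := hf
    refine ⟨prod (two T β l) S, (MonoidHom.prod (MonoidHom.id T.G) ι : T.G →* T.G × S.G),
      ProdTwo.prod _ _ (ProdTwo.base _ hl hf (two_values l)) hP, isQuat_prod hl hS, ?_, ?_, ?_, ?_⟩
    · show Finite (T.G × S.G)
      infer_instance
    · intro x y hxy
      exact congrArg (fun z : T.G × S.G => z.1) hxy
    · show ((T.neg, ι T.neg) : T.G × S.G) = (T.neg, S.neg)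
      rw [hn]
    · intro a b c d
      show ((l (β a b), S.q (ι a) (ι b)) : ZMod 2 × S.Q) = (l (β c d), S.q (ι c) (ι d)) ↔ _
      rw [Prod.mk_inj, he]
      simp

end two

/-- separation by homomorphisms to the group of order two -/
theorem sep {B : Type} [AddCommGroup B] (hB : ∀ b : B, b + b = 0) (x : B) (hx : x ≠ 0) :
    ∃ l : B →+ ZMod 2, l x ≠ 0 := by
  letI : Module (ZMod 2) B := AddCommGroup.zmodModule (n := 2) (fun b => by rw [two_nsmul, hB])
  by_contra hcon
  push Not at hcon
  apply hx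
  rw [← Module.forall_dual_apply_eq_zero_iff (ZMod 2) x]
  intro φ
  exact hcon φ.toAddMonoidHom

/-- structures with additive quaternions embed into products of structures with two quaternions -/
theorem emb_of_add {T : QData} (h : IsQuat T) (hf : Finite T.G) (hA : AddQuat T) :
    ∃ (S : QData) (ι : T.G →* S.G), ProdTwo S ∧ IsQuat S ∧ Finite S.G ∧ Emb T S ι := by
  classical
  obtain ⟨B, _, β, hB, hm, hq⟩ := hA
  have hch : ∀ p : (T.G × T.G) × T.G × T.G, ∃ l : B →+ ZMod 2,
      l (β p.1.1 p.1.2) = l (β p.2.1 p.2.2) → β p.1.1 p.1.2 = β p.2.1 p.2.2 := by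
    intro p
    by_cases hp : β p.1.1 p.1.2 = β p.2.1 p.2.2
    · exact ⟨0, fun _ => hp⟩
    · obtain ⟨l, hl⟩ := sep hB (β p.1.1 p.1.2 - β p.2.1 p.2.2) (sub_ne_zero.2 hp)
      refine ⟨l, fun e => absurd ?_ hl⟩
      rw [map_sub, e, sub_self]
  choose l hl using hch
  haveI := Fintype.ofFinite T.G
  obtain ⟨S, ι, hP, hS, hfS, hi, hn, he⟩ := emb_list h hf hm hq
    ((Finset.univ : Finset ((T.G × T.G) × T.G × T.G)).toList.map l)
  have heq : ∀ a b c d, T.q a b = T.q c d ↔ S.q (ι a) (ι b) = S.q (ι c) (ι d) := by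
    intro a b c d
    rw [he, ← hq]
    constructor
    · intro e l' _
      rw [e]
    · intro e
      refine hl ((a, b), c, d) (e _ ?_)
      exact List.mem_map.2 ⟨_, Finset.mem_toList.2 (Finset.mem_univ _), rfl⟩
  refine ⟨S, ι, hP, hS, hfS, ⟨hi, hn, ?_, heq⟩⟩
  intro a b
  have h1 := heq a b 1 1
  rwa [qone h, map_one, qone hS] at h1

/-- products of structures with at most two quaternions are of elementary type -/
theorem elem_of_prodTwo {S : QData} (hS : ProdTwo S) : Elem S := by
  induction hS with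
  | base S h hf ht =>
    haveI := hf
    exact elem_of_step h fun H hH _ => stepTwo_of_step (step_two h ht H hH)
  | prod S T _ _ h1 h2 => exact Elem.prod _ _ h1 h2
  | iso S T _ _ e h1 => exact Elem.iso _ _ h1 e

end Pool.Agent.HP953.EH
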