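import Mathlib
import Pool.Agent.HP953.EH.Two

set_option autoImplicit false

/-! # The structures of elementary type have additive quaternions -/

namespace Pool.Agent.HP953.EH

open Pool.Agent.H315R3.ETC Pool.Agent.TH673.VG Pool.Agent.Y920.QB

theorem c2_cases (β : C2) : β = 1 ∨ β = gen := by
  revert β; decide

theorem pw_mul {G : Type} [CommGroup G] {x : G} (hx : x * x = 1) (α β : C2) :
    pw x (α * β) = pw x α * pw x β := by
  have hg : (gen : C2) ≠ 1 := by decide
  have hgg : (gen : C2) * gen = 1 := by decide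
  rcases c2_cases α with rfl | rfl <;> rcases c2_cases β with rfl | rfl
  · simp [pw]
  · simp [pw]
  · simp [pw]
  · rw [hgg]
    simp [pw, hg, hx]

theorem pw_mul_left {G : Type} [CommGroup G] (x y : G) (α : C2) :
    pw (x * y) α = pw x α * pw y α := by
  unfold pw
  split_ifs <;> simp

theorem pw_sq {G : Type} [CommGroup G] {x : G} (hx : x * x = 1) (α : C2) :
    pw x α * pw x α = 1 := by
  unfold pw
  split_ifs
  · simp
  · exact hx

theorem good_of_elem {S : QData} (hS : Elem S) : (∀ a : S.G, a * a = 1) ∧ AddQuat S := by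
  induction hS with
  | l0 =>
    exact ⟨fun _ => rfl, PUnit, inferInstance, fun _ _ => 0, fun _ => rfl, fun _ _ _ => rfl,
      fun _ _ _ _ => ⟨fun _ => rfl, fun _ => rfl⟩⟩
  | l10 =>
    refine ⟨?_, PUnit, inferInstance, fun _ _ => 0, fun _ => rfl, fun _ _ _ => rfl,
      fun _ _ _ _ => ⟨fun _ => rfl, fun _ => rfl⟩⟩
    show ∀ a : C2, a * a = 1
    decide
  | l11 =>
    refine ⟨?_, PUnit, inferInstance, fun _ _ => 0, fun _ => rfl, fun _ _ _ => rfl,
      fun _ _ _ _ => ⟨fun _ => rfl, fun _ => rfl⟩⟩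
    show ∀ a : C2, a * a = 1
    decide
  | l1 =>
    refine ⟨?_, ZMod 2, inferInstance, fun (a b : C2) => if a = gen ∧ b = gen then 1 else 0, ?_,
      ?_, ?_⟩
    · show ∀ a : C2, a * a = 1
      decide
    · decide
    · show ∀ a b c : C2, (if a = gen ∧ b * c = gen then (1 : ZMod 2) else 0) =
        (if a = gen ∧ b = gen then (1 : ZMod 2) else 0) +
          (if a = gen ∧ c = gen then (1 : ZMod 2) else 0)
      decide
    · show ∀ a b c d : C2, (if a = gen ∧ b = gen then (1 : ZMod 2) else 0) =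
        (if c = gen ∧ d = gen then (1 : ZMod 2) else 0) ↔
          decide (a = gen ∧ b = gen) = decide (c = gen ∧ d = gen)
      decide
  | loc S hl =>
    classical
    obtain ⟨h, hf, -, -, hc⟩ := hl
    refine ⟨h.exp2, ?_⟩
    obtain ⟨t, u, -, htu⟩ := Set.ncard_eq_two.1 hc
    have hz : S.zero ∈ ({t | ∃ a b : S.G, S.q a b = t} : Set S.Q) := ⟨1, 1, qone h 1⟩
    obtain ⟨v, hv⟩ : ∃ v : S.Q, ∀ a b : S.G, S.q a b = S.zero ∨ S.q a b = v := by
      rw [htu] at hz
      rcases hz with hz | hz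
      · refine ⟨u, fun a b => ?_⟩
        have : S.q a b ∈ ({t | ∃ a b : S.G, S.q a b = t} : Set S.Q) := ⟨a, b, rfl⟩
        rw [htu] at this
        rcases this with e | e
        · exact Or.inl (e.trans hz.symm)
        · exact Or.inr e
      · refine ⟨t, fun a b => ?_⟩
        have : S.q a b ∈ ({t | ∃ a b : S.G, S.q a b = t} : Set S.Q) := ⟨a, b, rfl⟩
        rw [htu] at this
        rcases this with e | e
        · exact Or.inr e
        · exact Or.inl (e.trans (Set.mem_singleton_iff.1 hz).symm)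
    have hne : ∀ a b, S.q a b ≠ S.zero → S.q a b = v := fun a b hab => (hv a b).resolve_left hab
    refine ⟨ZMod 2, inferInstance, fun a b => if S.q a b = S.zero then 0 else 1, by decide, ?_, ?_⟩
    · intro a b c
      have h3 := h.qs3 a b c
      by_cases e1 : S.q a b = S.zero <;> by_cases e2 : S.q a c = S.zero
      · have : S.q a (b * c) = S.zero := h3.1 (e1.trans e2.symm)
        simp [e1, e2, this]
      · have : S.q a (b * c) ≠ S.zero := fun e => e2 ((h3.2 e).symm.trans e1)
        simp [e1, e2, this]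
      · have : S.q a (b * c) ≠ S.zero := fun e => e1 ((h3.2 e).trans e2)
        simp [e1, e2, this]
      · have : S.q a (b * c) = S.zero := h3.1 ((hne _ _ e1).trans (hne _ _ e2).symm)
        simp only [e1, e2, this, if_true, if_false]
        decide
    · intro a b c d
      show (if S.q a b = S.zero then (0 : ZMod 2) else 1) =
        (if S.q c d = S.zero then (0 : ZMod 2) else 1) ↔ _
      by_cases e1 : S.q a b = S.zero <;> by_cases e2 : S.q c d = S.zero
      · rw [if_pos e1, if_pos e2]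
        exact ⟨fun _ => e1.trans e2.symm, fun _ => rfl⟩
      · rw [if_pos e1, if_neg e2]
        exact ⟨fun e => absurd e (by decide), fun e => absurd (e.symm.trans e1) e2⟩
      · rw [if_neg e1, if_pos e2]
        exact ⟨fun e => absurd e (by decide), fun e => absurd (e.trans e2) e1⟩
      · rw [if_neg e1, if_neg e2]
        exact ⟨fun _ => (hne _ _ e1).trans (hne _ _ e2).symm, fun _ => rfl⟩
  | prod S T _ _ h1 h2 =>
    obtain ⟨x1, B1, _, β1, y1, z1, w1⟩ := h1
    obtain ⟨x2, B2, _, β2, y2, z2', w2⟩ := h2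
    refine ⟨fun a => Prod.ext (x1 a.1) (x2 a.2), B1 × B2, inferInstance,
      fun a b => (β1 a.1 b.1, β2 a.2 b.2), fun b => Prod.ext (y1 b.1) (y2 b.2),
      fun a b c => Prod.ext (z1 a.1 b.1 c.1) (z2' a.2 b.2 c.2), ?_⟩
    intro a b c d
    show ((β1 a.1 b.1, β2 a.2 b.2) : B1 × B2) = (β1 c.1 d.1, β2 c.2 d.2) ↔
      ((S.q a.1 b.1, T.q a.2 b.2) : S.Q × T.Q) = (S.q c.1 d.1, T.q c.2 d.2)
    rw [Prod.mk_inj, Prod.mk_inj, w1, w2]
  | ext S _ h1 =>
    obtain ⟨x1, B1, _, β1, y1, z1, w1⟩ := h1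
    have hC : ∀ c : C2, c * c = 1 := by decide
    refine ⟨fun a => Prod.ext (x1 a.1) (hC a.2), B1 × Additive S.G, inferInstance,
      fun u v => (β1 u.1 v.1, Additive.ofMul (pw (pw S.neg u.2) v.2 * pw u.1 v.2 * pw v.1 u.2)),
      fun b => Prod.ext (y1 b.1) (congrArg Additive.ofMul (x1 (Additive.toMul b.2))), ?_, ?_⟩
    · intro u v w
      refine Prod.ext (z1 u.1 v.1 w.1) ?_
      show Additive.ofMul (pw (pw S.neg u.2) (v.2 * w.2) * pw u.1 (v.2 * w.2) *
          pw (v.1 * w.1) u.2) =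
        Additive.ofMul (pw (pw S.neg u.2) v.2 * pw u.1 v.2 * pw v.1 u.2) +
          Additive.ofMul (pw (pw S.neg u.2) w.2 * pw u.1 w.2 * pw w.1 u.2)
      rw [← ofMul_mul]
      congr 1
      rw [pw_mul (pw_sq (x1 S.neg) u.2), pw_mul (x1 u.1), pw_mul_left]
      simp only [mul_assoc, mul_left_comm, mul_comm]
    · intro a b c d
      show ((β1 a.1 b.1, Additive.ofMul (pw (pw S.neg a.2) b.2 * pw a.1 b.2 * pw b.1 a.2)) :
          B1 × Additive S.G) =
        (β1 c.1 d.1, Additive.ofMul (pw (pw S.neg c.2) d.2 * pw c.1 d.2 * pw d.1 c.2)) ↔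
        ((S.q a.1 b.1, pw (pw S.neg a.2) b.2 * pw a.1 b.2 * pw b.1 a.2) : S.Q × S.G) =
        (S.q c.1 d.1, pw (pw S.neg c.2) d.2 * pw c.1 d.2 * pw d.1 c.2)
      rw [Prod.mk_inj, Prod.mk_inj, w1]
      exact Iff.rfl
  | iso S T _ e h1 =>
    obtain ⟨x1, B, _, β, y1, z1, w1⟩ := h1
    obtain ⟨φ, -, hφ⟩ := e
    refine ⟨fun a => ?_, B, inferInstance, fun a b => β (φ.symm a) (φ.symm b), y1, ?_, ?_⟩
    · have := congrArg φ (x1 (φ.symm a))
      rwa [map_mul, MulEquiv.apply_symm_apply, map_one] at this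
    · intro a b c
      show β (φ.symm a) (φ.symm (b * c)) = _
      rw [map_mul, z1]
    · intro a b c d
      rw [w1, hφ]
      simp only [MulEquiv.apply_symm_apply]

/-- a structure embedded in one of elementary type has additive quaternions -/
theorem add_of_emb {T S : QData} {ι : T.G →* S.G} (hE : Emb T S ι) (hS : AddQuat S) :
    AddQuat T := by
  obtain ⟨B, _, β, y1, z1, w1⟩ := hS
  refine ⟨B, inferInstance, fun a b => β (ι a) (ι b), y1, ?_, ?_⟩
  · intro a b c
    show β (ι a) (ι (b * c)) = _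
    rw [map_mul, z1]
  · intro a b c d
    rw [w1, hE.eq]

end Pool.Agent.HP953.EH
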