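import Mathlib
import Pool.Agent.HP953.EH.Two

set_option autoImplicit false

/-! # Additive quaternions and extension of symbols from subgroups with two generators -/

namespace Pool.Agent.HP953.EH

open Pool.Agent.H315R3.ETC Pool.Agent.TH673.VG Pool.Agent.Y920.QB

/-- `χ` is a symbol: bimultiplicative, and zero where `q` is -/
def Sym (S : QData) (χ : S.G → S.G → ZMod 2) : Prop :=
  (∀ a b c, χ (a * b) c = χ a c + χ b c) ∧ (∀ a b c, χ a (b * c) = χ a b + χ a c) ∧
    ∀ a b, S.q a b = S.zero → χ a b = 0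

/-- symbols on subgroups with two generators extend: for all `a, c` and all homomorphisms
`f, g : G → Z/2` such that `f` is zero on `V(a)`, `g` is zero on `V(c)` and `f = g` on `V(ac)`,
there is a symbol with `χ(a, ·) = f` and `χ(c, ·) = g` -/
def PairExtend (S : QData) : Prop :=
  ∀ (a c : S.G) (f g : S.G → ZMod 2), (∀ x y, f (x * y) = f x + f y) →
    (∀ x y, g (x * y) = g x + g y) → (∀ x, S.q a x = S.zero → f x = 0) →
    (∀ x, S.q c x = S.zero → g x = 0) → (∀ x, S.q (a * c) x = S.zero → f x = g x) →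
    ∃ χ : S.G → S.G → ZMod 2, Sym S χ ∧ (∀ x, χ a x = f x) ∧ ∀ x, χ c x = g x

theorem z2add {x y : ZMod 2} : x + y = 0 ↔ x = y := by
  revert x y; decide

theorem hom_one {G : Type} [Group G] {f : G → ZMod 2} (hf : ∀ x y, f (x * y) = f x + f y) :
    f 1 = 0 := by
  have := hf 1 1
  rw [mul_one] at this
  simpa using this

theorem pair_of_add {S : QData} (hS : IsQuat S) (hA : AddQuat S) : PairExtend S := by
  obtain ⟨B, _, β, hB, hm, hq⟩ := hA
  intro a c f g hf hg hfa hgc hfg
  have hs : ∀ u v, β u v = β v u := fun u v => (hq _ _ _ _).2 (hS.qs2 u v)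
  have hz := beta_zero hS hm hq
  letI : Module (ZMod 2) B := AddCommGroup.zmodModule (n := 2) (fun b => by rw [two_nsmul, hB])
  letI : Module (ZMod 2) (Additive (S.G × S.G)) := AddCommGroup.zmodModule (n := 2) (fun p => by
    rw [two_nsmul]
    exact congrArg Additive.ofMul (Prod.ext (hS.exp2 p.toMul.1) (hS.exp2 p.toMul.2)))
  let Φ : Additive (S.G × S.G) →+ B :=
    AddMonoidHom.mk' (fun p => β a p.toMul.1 + β c p.toMul.2) (by
      intro p r
      show β a (p.toMul.1 * r.toMul.1) + β c (p.toMul.2 * r.toMul.2) = _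
      rw [hm, hm]
      abel)
  let Ψ : Additive (S.G × S.G) →+ ZMod 2 :=
    AddMonoidHom.mk' (fun p => f p.toMul.1 + g p.toMul.2) (by
      intro p r
      show f (p.toMul.1 * r.toMul.1) + g (p.toMul.2 * r.toMul.2) = _
      rw [hf, hg]
      abel)
  have hker : ∀ p, Φ p = 0 → Ψ p = 0 := by
    intro p (hp : β a p.toMul.1 + β c p.toMul.2 = 0)
    show f p.toMul.1 + g p.toMul.2 = 0
    have h1 : β a p.toMul.1 = β c p.toMul.2 := by
      have e : β a p.toMul.1 = β a p.toMul.1 + (β c p.toMul.2 + β c p.toMul.2) := by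
        rw [hB, add_zero]
      rw [e, ← add_assoc, hp, zero_add]
    obtain ⟨z, hz1, hz2⟩ := hS.qs4 _ _ _ _ ((hq _ _ _ _).1 h1)
    have e1 : f p.toMul.1 = f z := z2add.1 (by rw [← hf]; exact hfa _ ((hS.qs3 _ _ _).1 hz1))
    have e2 : g p.toMul.2 = g z := z2add.1 (by rw [← hg]; exact hgc _ ((hS.qs3 _ _ _).1 hz2))
    have e3 : S.q a z = S.q c z := hz1.symm.trans (((hq _ _ _ _).1 h1).trans hz2)
    have e4 : S.q (a * c) z = S.zero := by
      rw [hS.qs2]
      refine (hS.qs3 _ _ _).1 ?_
      rw [hS.qs2 z a, hS.qs2 z c, e3]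
    rw [e1, e2]
    exact z2add.2 (hfg _ e4)
  obtain ⟨l, hl⟩ : ∃ l : B →ₗ[ZMod 2] ZMod 2, ∀ p, l (Φ p) = Ψ p := by
    have hmem : (Ψ.toZModLinearMap 2 : Module.Dual (ZMod 2) (Additive (S.G × S.G))) ∈
        (LinearMap.ker (Φ.toZModLinearMap 2)).dualAnnihilator := by
      rw [Submodule.mem_dualAnnihilator]
      intro w hw
      exact hker w hw
    rw [← LinearMap.range_dualMap_eq_dualAnnihilator_ker] at hmem
    obtain ⟨l, hl⟩ := hmem
    exact ⟨l, fun p => LinearMap.congr_fun hl p⟩
  refine ⟨fun u v => l (β u v), ⟨?_, ?_, ?_⟩, ?_, ?_⟩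
  · intro u v w
    show l (β (u * v) w) = l (β u w) + l (β v w)
    rw [hs, hm, hs w u, hs w v, map_add]
  · intro u v w
    show l (β u (v * w)) = _
    rw [hm, map_add]
  · intro u v huv
    show l (β u v) = 0
    rw [(hz u v).2 huv, map_zero]
  · intro x
    have := hl (Additive.ofMul (x, 1))
    change l (β a x + β c 1) = f x + g 1 at this
    rwa [beta_one hm, hom_one hg, add_zero, add_zero] at this
  · intro x
    have := hl (Additive.ofMul (1, x))
    change l (β a 1 + β c x) = f 1 + g x at this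
    rwa [beta_one hm, hom_one hf, zero_add, zero_add] at this

theorem sym_eq {S : QData} (hS : IsQuat S) {χ : S.G → S.G → ZMod 2} (hχ : Sym S χ) {a b c d : S.G}
    (h : S.q a b = S.q c d) : χ a b = χ c d := by
  obtain ⟨h1, h2, h3⟩ := hχ
  obtain ⟨z, hz1, hz2⟩ := hS.qs4 _ _ _ _ h
  have e1 : χ a b = χ a z := z2add.1 (by rw [← h2]; exact h3 _ _ ((hS.qs3 _ _ _).1 hz1))
  have e2 : χ c d = χ c z := z2add.1 (by rw [← h2]; exact h3 _ _ ((hS.qs3 _ _ _).1 hz2))
  have e3 : S.q (a * c) z = S.zero := by
    rw [hS.qs2]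
    refine (hS.qs3 _ _ _).1 ?_
    rw [hS.qs2 z a, hS.qs2 z c, ← hz1, ← hz2, h]
  rw [e1, e2]
  exact z2add.1 (by rw [← h1]; exact h3 _ _ e3)

theorem add_of_pair {S : QData} (hS : IsQuat S) (hP : PairExtend S) : AddQuat S := by
  refine ⟨{χ : S.G → S.G → ZMod 2 // Sym S χ} → ZMod 2, inferInstance,
    fun a b χ => χ.1 a b, ?_, ?_, ?_⟩
  · intro b
    funext χ
    exact z2add.2 rfl
  · intro a b c
    funext χ
    exact χ.2.2.1 a b c
  · intro a b c d
    constructor
    · intro hab
      have hab' : ∀ χ, Sym S χ → χ a b = χ c d := fun χ hχ => congrFun hab ⟨χ, hχ⟩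
      by_contra hne
      have hmul : ∀ u g g' : S.G, S.q u g = S.zero → S.q u g' = S.zero → S.q u (g * g') = S.zero :=
        fun u g g' h1 h2 => (hS.qs3 _ _ _).1 (h1.trans h2.symm)
      have hinv : ∀ x : S.G, x⁻¹ = x := fun x => inv_eq_of_mul_eq_one_left (hS.exp2 x)
      let R : Subgroup (S.G × S.G) :=
        { carrier := {p | ∃ v, S.q (a * c) v = S.zero ∧ S.q a (p.1 * v) = S.zero ∧
            S.q c (p.2 * v) = S.zero}
          one_mem' := by
            refine ⟨1, qone hS _, ?_, ?_⟩
            · show S.q a (1 * 1) = S.zero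
              rw [mul_one]; exact qone hS _
            · show S.q c (1 * 1) = S.zero
              rw [mul_one]; exact qone hS _
          mul_mem' := by
            rintro p r ⟨v, hv1, hv2, hv3⟩ ⟨w, hw1, hw2, hw3⟩
            refine ⟨v * w, hmul _ _ _ hv1 hw1, ?_, ?_⟩
            · show S.q a (p.1 * r.1 * (v * w)) = S.zero
              rw [mul_mul_mul_comm]
              exact hmul _ _ _ hv2 hw2
            · show S.q c (p.2 * r.2 * (v * w)) = S.zero
              rw [mul_mul_mul_comm]
              exact hmul _ _ _ hv3 hw3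
          inv_mem' := by
            rintro p ⟨v, hv1, hv2, hv3⟩
            refine ⟨v, hv1, ?_, ?_⟩
            · show S.q a (p.1⁻¹ * v) = S.zero
              rw [hinv]; exact hv2
            · show S.q c (p.2⁻¹ * v) = S.zero
              rw [hinv]; exact hv3 }
      have hbd : ((b, d) : S.G × S.G) ∉ R := by
        rintro ⟨v, hv1, hv2, hv3⟩
        apply hne
        have e1 : S.q a b = S.q a v := (hS.qs3 _ _ _).2 hv2
        have e2 : S.q c d = S.q c v := (hS.qs3 _ _ _).2 hv3
        have e3 : S.q v a = S.q v c := (hS.qs3 _ _ _).2 (by rw [hS.qs2]; exact hv1)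
        rw [e1, e2, hS.qs2 a v, hS.qs2 c v, e3]
      have hexp : ∀ x : Additive ((S.G × S.G) ⧸ R), x + x = 0 := by
        intro x
        obtain ⟨y, hy⟩ := QuotientGroup.mk_surjective (s := R) x.toMul
        have : x = Additive.ofMul (QuotientGroup.mk y : (S.G × S.G) ⧸ R) := by
          rw [hy]; rfl
        rw [this, ← ofMul_mul, ← QuotientGroup.mk_mul]
        have hyy : y * y = 1 := Prod.ext (hS.exp2 y.1) (hS.exp2 y.2)
        rw [hyy]
        rfl
      have hnz : Additive.ofMul (QuotientGroup.mk (b, d) : (S.G × S.G) ⧸ R) ≠ 0 := by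
        intro h0
        apply hbd
        exact (QuotientGroup.eq_one_iff (N := R) (b, d)).1 (Additive.ofMul.injective h0)
      obtain ⟨l, hl⟩ := sep hexp _ hnz
      let F : S.G × S.G → ZMod 2 := fun p => l (Additive.ofMul (QuotientGroup.mk p : _ ⧸ R))
      have hF : ∀ p r, F (p * r) = F p + F r := by
        intro p r
        show l (Additive.ofMul (QuotientGroup.mk (p * r) : _ ⧸ R)) = _
        rw [QuotientGroup.mk_mul, ofMul_mul, map_add]
      have hF0 : ∀ p ∈ R, F p = 0 := by
        intro p hp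
        show l (Additive.ofMul (QuotientGroup.mk p : _ ⧸ R)) = 0
        rw [(QuotientGroup.eq_one_iff (N := R) p).2 hp]
        exact map_zero l
      have hFxy : ∀ x y, F (x, y) = F (x, 1) + F (1, y) := by
        intro x y
        rw [← hF]
        congr 1
        exact Prod.ext (mul_one x).symm (one_mul y).symm
      obtain ⟨χ, hχ, hχa, hχc⟩ := hP a c (fun x => F (x, 1)) (fun y => F (1, y))
        (fun x y => by rw [← hF]; congr 1; exact Prod.ext rfl (mul_one 1).symm)
        (fun x y => by rw [← hF]; congr 1; exact Prod.ext (mul_one 1).symm rfl)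
        (fun x hx => hF0 _ ⟨1, qone hS _, by rw [mul_one]; exact hx, by
          show S.q c (1 * 1) = S.zero
          rw [mul_one]; exact qone hS _⟩)
        (fun x hx => hF0 _ ⟨1, qone hS _, by
          show S.q a (1 * 1) = S.zero
          rw [mul_one]; exact qone hS _, by rw [mul_one]; exact hx⟩)
        (fun x hx => z2add.1 (by
          rw [← hFxy]
          exact hF0 _ ⟨x, hx, by
            show S.q a (x * x) = S.zero
            rw [hS.exp2]; exact qone hS _, by
            show S.q c (x * x) = S.zero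
            rw [hS.exp2]; exact qone hS _⟩))
      apply hl
      show F (b, d) = 0
      rw [hFxy, z2add]
      have := hab' χ hχ
      rw [hχa, hχc] at this
      exact this
    · intro h
      funext χ
      exact sym_eq hS χ.2 h

end Pool.Agent.HP953.EH
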