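import Pool.Agent.TH188.ET.EightM
import Pool.Agent.HP953.EH.Pair

set_option autoImplicit false

/-! # Product symbols on small subgroups and structures with additive quaternions

The proofs of `hered_quot'` and `step'` are those of `hered_quot` and `step` in
`Pool.Agent.TH188.ET`, with the induction restricted to structures with additive quaternions. -/

namespace Pool.Agent.HP953.EH

open Pool.Agent.H315R3.ETC Pool.Agent.W622.ETG Module
open Pool.Agent.TH188.ET8 (PE linked_of_PE isQuat_QD QD_eq QD_zero Closed PE_of_MX SmallProd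
  card_span_three exists_form)

section fam
variable {V : Type} [AddCommGroup V] [Module (ZMod 2) V] {e : V}

theorem addQuat_QD (e : V) (A : Fam V) : AddQuat (QD e A) := by
  refine ⟨A → ZMod 2, inferInstance, fun (a b : Multiplicative V) ω => ω.1 a.toAdd b.toAdd, ?_, ?_,
    ?_⟩
  · intro b
    funext ω
    exact z2add.2 rfl
  · intro (a : Multiplicative V) (b : Multiplicative V) (c : Multiplicative V)
    funext ω
    exact map_add (ω.1 a.toAdd) b.toAdd c.toAdd
  · intro a b c d
    exact Iff.rfl

variable [Finite V]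

/-- if the smaller structures with additive quaternions are of elementary type and `A_u` is linked,
`A_u` is hereditarily linked -/
theorem hered_quot' (hPL : S_PL) (hconv : S_CONV) {A : Fam V} (hA : EFam e A) (hcl : Closed A)
    {u : V} (hu : u ≠ 0) (hL : Linked (res A (ann u)))
    (IH : ∀ T : QData, IsQuat T → Finite T.G → AddQuat T → Nat.card T.G < Nat.card V → Elem T) :
    Hered (res A (ann u)) := by
  classical
  set K : Submodule (ZMod 2) V := Submodule.span (ZMod 2) {u} with hK
  let V' : Type := V ⧸ K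
  let mk : V →ₗ[ZMod 2] V' := K.mkQ
  have hmks : Function.Surjective mk := K.mkQ_surjective
  obtain ⟨s, hs⟩ := mk.exists_rightInverse_of_surjective (LinearMap.range_eq_top.2 hmks)
  have hs' : ∀ x, mk (s x) = x := fun x => LinearMap.congr_fun hs x
  have hmku : mk u = 0 := by
    show K.mkQ u = 0
    rw [Submodule.mkQ_apply, Submodule.Quotient.mk_eq_zero]
    exact Submodule.mem_span_singleton_self u
  let pull : Frm V' →ₗ[ZMod 2] Frm V :=
    { toFun := fun ω => ω.compl₁₂ mk mk
      map_add' := by intro a b; ext x y; rfl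
      map_smul' := by intro c a; ext x y; rfl }
  have hpull : ∀ (ω : Frm V') (a b : V), pull ω a b = ω (mk a) (mk b) := fun ω a b => rfl
  -- descent
  have hdesc : ∀ ω ∈ A, ω u = 0 → ∃ ω' : Frm V', pull ω' = ω := by
    intro ω hω hωu
    refine ⟨ω.compl₁₂ s s, ?_⟩
    have hd : ∀ a : V, s (mk a) - a = 0 ∨ s (mk a) - a = u := by
      intro a
      have h1 : s (mk a) - a ∈ K := by
        rw [← Submodule.Quotient.mk_eq_zero]
        show mk (s (mk a) - a) = 0
        rw [map_sub, hs', sub_self]
      exact span_one_mem.1 h1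
    have hk : ∀ a : V, ω (s (mk a)) = ω a := by
      intro a
      have h1 : s (mk a) = (s (mk a) - a) + a := by abel
      rcases hd a with h | h
      · rw [h1, h, zero_add]
      · rw [h1, h, map_add, hωu, zero_add]
    ext a b
    show ω (s (mk a)) (s (mk b)) = ω a b
    rw [hk, (hA ω hω).symm, hk, (hA ω hω).symm]
  let A' : Fam V' := A.comap pull
  have hA'm : ∀ ω', ω' ∈ A' ↔ pull ω' ∈ A := fun _ => Iff.rfl
  have hpu : ∀ ω' : Frm V', ∀ a, pull ω' a u = 0 := by
    intro ω' a
    rw [hpull, hmku, map_zero]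
  have hpann : ∀ ω' ∈ A', pull ω' ∈ res A (ann u) := by
    intro ω' hω'
    exact ⟨hω', fun a => hpu ω' a⟩
  have hker : ∀ ω ∈ res A (ann u), ω ∈ A ∧ ω u = 0 := fun ω hω => (mem_res_ann hA).1 hω
  have hEF : EFam (mk e) A' := by
    intro ω' hω'
    constructor
    · intro x y
      obtain ⟨a, rfl⟩ := hmks x
      obtain ⟨b, rfl⟩ := hmks y
      rw [← hpull, ← hpull]
      exact (hA _ hω').symm a b
    · intro x
      obtain ⟨a, rfl⟩ := hmks x
      rw [← hpull, ← hpull]
      exact (hA _ hω').sq a
  -- equality of values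
  have hval : ∀ (ω' η' : Frm V') (a c : V), ω' (mk a) = η' (mk c) ↔ pull ω' a = pull η' c := by
    intro ω' η' a c
    constructor
    · intro h
      refine LinearMap.ext fun b => ?_
      rw [hpull, hpull, h]
    · intro h
      refine LinearMap.ext fun y => ?_
      obtain ⟨b, rfl⟩ := hmks y
      rw [← hpull, ← hpull, h]
  have hL' : Linked A' := by
    intro ω' hω' η' hη' x z hxz
    obtain ⟨a, rfl⟩ := hmks x
    obtain ⟨c, rfl⟩ := hmks z
    obtain ⟨ζ, hζ, h1, h2⟩ := hL _ (hpann _ hω') _ (hpann _ hη') a c ((hval _ _ _ _).1 hxz)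
    obtain ⟨hζA, hζu⟩ := hker ζ hζ
    obtain ⟨ζ', rfl⟩ := hdesc ζ hζA hζu
    exact ⟨ζ', hζA, (hval _ _ _ _).2 h1, (hval _ _ _ _).2 h2⟩
  have hcl' : Closed A' := by
    intro ω' hω'
    apply hcl
    intro a b hab
    rw [hpull]
    apply hω'
    intro η' hη'
    have := hab _ hη'
    rwa [hpull] at this
  have hfin' : Finite V' := Finite.of_surjective mk hmks
  have hcard : Nat.card V' < Nat.card V := by
    have h1 : Nat.card V' ≤ Nat.card V := Nat.card_le_card_of_surjective mk hmks
    refine lt_of_le_of_ne h1 fun h2 => ?_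
    have hbij : Function.Bijective mk := by
      rw [Nat.bijective_iff_surjective_and_card]
      exact ⟨hmks, h2.symm⟩
    exact hu (hbij.1 (by rw [hmku, map_zero]))
  have hElem : Elem (QD (mk e) A') :=
    IH _ (isQuat_QD hPL hEF hL') hfin' (addQuat_QD _ _) hcard
  have hMX : MX (QD (mk e) A') := hconv _ (isQuat_QD hPL hEF hL') hElem
  have hH' : Hered A' := fun X' => linked_of_PE hEF X' fun a c => PE_of_MX hcl' hMX _
  intro X ω hω η hη a c hac
  have hω2 : ω ∈ res A (ann u) := hω.1
  have hη2 : η ∈ res A (ann u) := hη.1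
  obtain ⟨hωA, hωu⟩ := hker ω hω2
  obtain ⟨hηA, hηu⟩ := hker η hη2
  obtain ⟨ω', rfl⟩ := hdesc ω hωA hωu
  obtain ⟨η', rfl⟩ := hdesc η hηA hηu
  let X' : DSub V' := X.comap (Module.Dual.transpose (R := ZMod 2) mk)
  have hX' : ∀ g' : Dl V', g' ∈ X' ↔ g'.comp mk ∈ X := fun _ => Iff.rfl
  have hmem : ∀ ζ' : Frm V', pull ζ' ∈ res (res A (ann u)) X ↔ ζ' ∈ res A' X' := by
    intro ζ'
    constructor
    · rintro ⟨h1, h2⟩
      refine ⟨h1.1, fun x => ?_⟩
      obtain ⟨b, rfl⟩ := hmks x
      exact h2 b
    · rintro ⟨h1, h2⟩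
      exact ⟨hpann _ h1, fun b => h2 (mk b)⟩
  obtain ⟨ζ', hζ', h1, h2⟩ := hH' X' _ ((hmem _).1 hω) _ ((hmem _).1 hη) (mk a) (mk c)
    ((hval _ _ _ _).2 hac)
  exact ⟨pull ζ', (hmem _).2 hζ', (hval _ _ _ _).1 h1, (hval _ _ _ _).1 h2⟩

end fam

/-- the inductive step in the class of structures with additive quaternions -/
theorem step' (S : QData) (hS : IsQuat S) (hfin : Finite S.G) (hMX : SmallProd S)
    (IH : ∀ T : QData, IsQuat T → Finite T.G → AddQuat T → Nat.card T.G < Nat.card S.G → Elem T) :
    Elem S := by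
  classical
  obtain ⟨hcore, hPL, hout, hconv⟩ := Pool.Agent.W622.ETG.all_parts
  let _ : Module (ZMod 2) (Additive S.G) := AddCommGroup.zmodModule (n := 2) (by
    intro x
    rw [two_smul]
    exact hS.exp2 x.toMul)
  have : Finite (Additive S.G) := hfin
  -- facts on `q`
  have q1 : ∀ a, S.q a 1 = S.zero := by
    intro a
    have := (hS.qs3 a 1 1).1 rfl
    rwa [mul_one] at this
  have qmul : ∀ a b c, S.q a b = S.zero → S.q a c = S.zero → S.q a (b * c) = S.zero := by
    intro a b c h1 h2
    exact (hS.qs3 a b c).1 (h1.trans h2.symm)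
  set e : Additive S.G := Additive.ofMul S.neg with he
  have hsq : ∀ ω ∈ BRI_A S, ∀ a : Additive S.G, ω a a = ω a e := by
    intro ω hω a
    have h1 : ω a (e + a) = 0 := hω a (e + a) (hS.qs1 a.toMul)
    rw [map_add] at h1
    exact (Pool.Agent.W622.ETC.add_eq_zero'.1 h1).symm
  have halt : EFam e (BRI_A S) := by
    intro ω hω
    refine ⟨fun a b => ?_, hsq ω hω⟩
    have h1 := hsq ω hω (a + b)
    simp only [map_add, LinearMap.add_apply] at h1
    rw [hsq ω hω a, hsq ω hω b] at h1
    have h2 : ω a b + ω b a = 0 := by linear_combination h1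
    exact Pool.Agent.W622.ETC.add_eq_zero'.1 h2
  -- extension of symbols given by a product
  have hext : ∀ (W : Submodule (ZMod 2) (Additive S.G)), Nat.card W ≤ 8 →
      ∀ (φ f : Dl (Additive S.G)),
      (∀ w ∈ W, φ w ≠ 0 → ∀ b : Additive S.G, S.q w.toMul b.toMul = S.zero → f b = 0) →
      ∃ ω ∈ BRI_A S, ∀ w ∈ W, ω w = φ w • f := by
    intro W hWc φ f hW
    let W' : Subgroup S.G :=
      { carrier := {x | Additive.ofMul x ∈ W}
        mul_mem' := fun {x y} hx hy => W.add_mem hx hy
        one_mem' := W.zero_mem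
        inv_mem' := fun {x} hx => W.neg_mem hx }
    have hWc' : Nat.card W' ≤ 8 := hWc
    obtain ⟨χ', hχ, hχ'⟩ := hMX W' hWc' (fun x => φ (Additive.ofMul x))
      (fun y => f (Additive.ofMul y)) (fun a b => by
        show φ (Additive.ofMul (a * b)) = _
        rw [ofMul_mul, map_add]) (fun a b => by
        show f (Additive.ofMul (a * b)) = _
        rw [ofMul_mul, map_add]) (by
        intro a ha b hab
        show φ (Additive.ofMul a) * f (Additive.ofMul b) = 0
        by_cases h0 : φ (Additive.ofMul a) = 0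
        · rw [h0, zero_mul]
        · rw [hW _ ha h0 (Additive.ofMul b) hab, mul_zero])
    obtain ⟨ω, hω, hω'⟩ := BRI_form hχ
    refine ⟨ω, hω, fun w hw => ?_⟩
    ext b
    rw [hω', hχ' w.toMul hw]
    rfl
  -- the forms detect the zeros of `q`
  have hdet : ∀ a b : Additive S.G, (∀ ω ∈ BRI_A S, ω a b = 0) →
      S.q a.toMul b.toMul = S.zero := by
    intro a b hab
    by_contra hne
    let K : Submodule (ZMod 2) (Additive S.G) :=
      AddSubgroup.toZModSubmodule 2
        { carrier := {y : Additive S.G | S.q a.toMul y.toMul = S.zero}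
          add_mem' := fun {x y} hx hy => qmul _ _ _ hx hy
          zero_mem' := q1 _
          neg_mem' := fun {x} hx => by
            have : -x = x := by
              rw [neg_eq_iff_add_eq_zero]; exact vadd x
            rw [this]; exact hx }
    have hbK : b ∉ K := hne
    obtain ⟨f, hf1, hf2⟩ := Submodule.exists_le_ker_of_notMem hbK
    have ha0 : a ≠ 0 := by
      rintro rfl
      apply hne
      rw [hS.qs2]
      exact q1 _
    obtain ⟨φ, hφ⟩ := exists_ne_one ha0
    obtain ⟨ω, hω, hω'⟩ := hext (Submodule.span (ZMod 2) {a})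
      (card_span_three 0 a a _ (le_sup_of_le_right (Submodule.span_mono (by simp)))) φ f (by
      intro w hw hφw y hy
      rcases span_one_mem.1 hw with rfl | rfl
      · exact absurd (map_zero φ) hφw
      · exact hf2 hy)
    have h1 := hab ω hω
    rw [hω' a (Submodule.mem_span_singleton_self a), hφ, one_smul] at h1
    exact hf1 h1
  -- extension in terms of the family
  have hPE : ∀ W : Submodule (ZMod 2) (Additive S.G), Nat.card W ≤ 8 → PE (BRI_A S) W := by
    intro W hW φ f h
    refine hext W hW φ f fun w hw hφ b hb => h w hw hφ b fun ω hω => hω w b hb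
  have hL : Linked (BRI_A S) := by
    have h1 := linked_of_PE halt ⊤ (by
      intro a c
      apply hPE
      apply card_span_three 0 a c
      rw [Submodule.dualCoannihilator_top]
      simp)
    rwa [res_top] at h1
  have hLu : ∀ u : Additive S.G, Linked (res (BRI_A S) (ann u)) := by
    intro u
    refine linked_of_PE halt (ann u) ?_
    intro a c
    apply hPE
    apply card_span_three u a c
    refine sup_le_sup_right ?_ _
    intro v hv
    by_contra hcon
    obtain ⟨g, hg1, hg2⟩ := Submodule.exists_le_ker_of_notMem hcon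
    rw [Submodule.mem_dualCoannihilator] at hv
    refine hg1 (hv g ?_)
    exact hg2 (Submodule.mem_span_singleton_self u)
  have hcl : Closed (BRI_A S) := by
    intro ω hω a b hab
    exact hω a b fun η hη => hη a b hab
  have hHu : ∀ u : Additive S.G, u ≠ 0 → Hered (res (BRI_A S) (ann u)) := by
    intro u hu
    refine hered_quot' hPL hconv halt hcl hu (hLu u) ?_
    intro T hT hTf hTA hTc
    exact IH T hT hTf hTA hTc
  have hher : Hered (BRI_A S) := by
    intro X
    by_cases hX : X = ⊤
    · rw [hX, res_top]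
      exact hL
    · obtain ⟨u, hu, hXu⟩ := exists_ann hX
      have h1 := hHu u hu X
      rwa [res_res_of_le _ hXu] at h1
  -- equality of quaternions
  have heq : ∀ a b c d : Additive S.G, (∀ ω ∈ BRI_A S, ω a b = ω c d) ↔
      S.q a.toMul b.toMul = S.q c.toMul d.toMul := by
    intro a b c d
    constructor
    · intro h
      obtain ⟨z, h1, h2, h3⟩ := hPL (Additive S.G) e (BRI_A S) halt hher.linked a c b d h
      have e1 := (hS.qs3 a.toMul b.toMul z.toMul).2 (hdet a (b + z) h1)
      have e2 := (hS.qs3 c.toMul d.toMul z.toMul).2 (hdet c (d + z) h2)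
      have e3 := hdet (a + c) z h3
      rw [hS.qs2] at e3
      have e4 := (hS.qs3 z.toMul a.toMul c.toMul).2 e3
      rw [e1, e2, hS.qs2 a.toMul, hS.qs2 c.toMul, e4]
    · intro h ω hω
      obtain ⟨x, hx1, hx2⟩ := hS.qs4 _ _ _ _ h
      have e1 : ω a (b + Additive.ofMul x) = 0 := hω _ _ ((hS.qs3 _ _ _).1 hx1)
      have e2 : ω c (d + Additive.ofMul x) = 0 := hω _ _ ((hS.qs3 _ _ _).1 hx2)
      have e3 : S.q x a.toMul = S.q x c.toMul := by
        rw [hS.qs2 x, hS.qs2 x, ← hx1, ← hx2, h]
      have e4 : ω (Additive.ofMul x) (a + c) = 0 := hω _ _ ((hS.qs3 _ _ _).1 e3)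
      rw [map_add] at e1 e2 e4
      have f1 := Pool.Agent.W622.ETC.add_eq_zero'.1 e1
      have f2 := Pool.Agent.W622.ETC.add_eq_zero'.1 e2
      have f4 := Pool.Agent.W622.ETC.add_eq_zero'.1 e4
      rw [f1, f2, (halt ω hω).symm, f4, (halt ω hω).symm]
  have hElem : Elem (QD e (BRI_A S)) := hout _ _ _ (hcore _ _ _ halt hher)
  refine Elem.iso _ _ hElem ⟨MulEquiv.multiplicativeAdditive S.G, rfl, ?_⟩
  intro a b c d
  rw [QD_eq]
  exact heq a.toAdd b.toAdd c.toAdd d.toAdd

/-- product symbols defined on subgroups with at most `k` elements extend -/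
def ProductsExtend (k : ℕ) (S : QData) : Prop :=
  ∀ (W : Subgroup S.G), Nat.card W ≤ k → ∀ (l f : S.G → ZMod 2), (∀ a b, l (a * b) = l a + l b) →
    (∀ a b, f (a * b) = f a + f b) → (∀ w ∈ W, ∀ b, S.q w b = S.zero → l w * f b = 0) →
    ∃ χ : S.G → S.G → ZMod 2, Sym S χ ∧ ∀ w ∈ W, ∀ b, χ w b = l w * f b

theorem smallProd_of {S : QData} (h : ProductsExtend 8 S) : SmallProd S := by
  intro W hW l f hl hf h0
  obtain ⟨χ, ⟨h1, h2, h3⟩, h4⟩ := h W hW l f hl hf h0
  exact ⟨χ, ⟨fun a _ b _ c => h1 a b c, fun a _ b c => h2 a b c, fun a _ b => h3 a b⟩, h4⟩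

theorem products_of_elem {S : QData} (hS : IsQuat S) (hE : Elem S) (k : ℕ) :
    ProductsExtend k S := by
  intro W _ l f hl hf h0
  obtain ⟨χ, ⟨h1, h2, h3⟩, h4⟩ := Pool.Agent.W622.ETG.all_parts.2.2.2 S hS hE W
    (fun w b => l w * f b) ⟨fun a _ b _ c => by
      show l (a * b) * f c = l a * f c + l b * f c
      rw [hl, add_mul], fun a _ b c => by
      show l a * f (b * c) = l a * f b + l a * f c
      rw [hf, mul_add], h0⟩
  exact ⟨χ, ⟨fun a b c => h1 a trivial b trivial c, fun a b c => h2 a trivial b c,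
    fun a b => h3 a trivial b⟩, h4⟩

/-- a subgroup with at most four elements of a group of exponent two has two generators -/
theorem two_gen {G : Type} [CommGroup G] [Finite G] (h2 : ∀ x : G, x * x = 1) (W : Subgroup G)
    (hW : Nat.card W ≤ 4) :
    ∃ a ∈ W, ∃ c ∈ W, ∀ w ∈ W, w = 1 ∨ w = a ∨ w = c ∨ w = a * c := by
  classical
  by_cases h1 : ∀ w ∈ W, w = 1
  · exact ⟨1, W.one_mem, 1, W.one_mem, fun w hw => Or.inl (h1 w hw)⟩
  push Not at h1
  obtain ⟨a, ha, ha1⟩ := h1
  by_cases h3 : ∀ w ∈ W, w = 1 ∨ w = a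
  · exact ⟨a, ha, 1, W.one_mem, fun w hw => (h3 w hw).imp_right Or.inl⟩
  push Not at h3
  obtain ⟨c, hc, hc1, hca⟩ := h3
  refine ⟨a, ha, c, hc, fun w hw => ?_⟩
  by_contra hcon
  push Not at hcon
  obtain ⟨w1, w2, w3, w4⟩ := hcon
  have hac1 : a * c ≠ 1 := by
    intro e
    apply hca
    have : a * (a * c) = a := by rw [e, mul_one]
    rwa [← mul_assoc, h2, one_mul] at this
  have haca : a * c ≠ a := fun e => hc1 (by simpa using e)
  have hacc : a * c ≠ c := fun e => ha1 (by simpa using e)
  have n4 : a * c ∉ ({w} : Finset G) := by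
    rw [Finset.mem_singleton]; exact Ne.symm w4
  have n3 : c ∉ ({a * c, w} : Finset G) := by
    rw [Finset.mem_insert, Finset.mem_singleton, not_or]
    exact ⟨Ne.symm hacc, Ne.symm w3⟩
  have n2 : a ∉ ({c, a * c, w} : Finset G) := by
    rw [Finset.mem_insert, Finset.mem_insert, Finset.mem_singleton, not_or, not_or]
    exact ⟨Ne.symm hca, Ne.symm haca, Ne.symm w2⟩
  have n1 : 1 ∉ ({a, c, a * c, w} : Finset G) := by
    rw [Finset.mem_insert, Finset.mem_insert, Finset.mem_insert, Finset.mem_singleton, not_or,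
      not_or, not_or]
    exact ⟨Ne.symm ha1, Ne.symm hc1, Ne.symm hac1, Ne.symm w1⟩
  have hs : ({1, a, c, a * c, w} : Finset G).card = 5 := by
    rw [Finset.card_insert_of_notMem n1, Finset.card_insert_of_notMem n2,
      Finset.card_insert_of_notMem n3, Finset.card_insert_of_notMem n4, Finset.card_singleton]
  have hsub : (({1, a, c, a * c, w} : Finset G) : Set G) ⊆ (W : Set G) := by
    intro x hx
    rw [Finset.mem_coe, Finset.mem_insert, Finset.mem_insert, Finset.mem_insert, Finset.mem_insert,
      Finset.mem_singleton] at hx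
    rcases hx with h | h | h | h | h
    · rw [h]; exact W.one_mem
    · rw [h]; exact ha
    · rw [h]; exact hc
    · rw [h]; exact W.mul_mem ha hc
    · rw [h]; exact hw
  have h5 := Set.ncard_le_ncard hsub (Set.toFinite _)
  rw [Set.ncard_coe_finset, hs] at h5
  have h6 : Nat.card W = (W : Set G).ncard := Nat.card_coe_set_eq (W : Set G)
  omega

theorem products_four_of_pair {S : QData} (hS : IsQuat S) (hfin : Finite S.G)
    (hP : PairExtend S) : ProductsExtend 4 S := by
  intro W hW l f hl hf h0
  obtain ⟨a, ha, c, hc, hw⟩ := two_gen hS.exp2 W hW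
  obtain ⟨χ, hχ, h1, h2⟩ := hP a c (fun x => l a * f x) (fun x => l c * f x)
    (fun x y => by rw [hf, mul_add]) (fun x y => by rw [hf, mul_add])
    (h0 a ha) (h0 c hc) (fun x hx => by
      have := h0 _ (W.mul_mem ha hc) x hx
      rw [hl, add_mul] at this
      exact z2add.1 this)
  refine ⟨χ, hχ, fun w hwW b => ?_⟩
  have hl1 : l 1 = 0 := hom_one hl
  have hχ1 : ∀ b, χ 1 b = 0 := fun b => hom_one (f := fun a => χ a b) (fun x y => hχ.1 x y b)
  rcases hw w hwW with rfl | rfl | rfl | rfl
  · rw [hl1, zero_mul, hχ1]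
  · exact h1 b
  · exact h2 b
  · rw [hχ.1, hl, add_mul, h1, h2]

theorem card_span_two {V : Type} [AddCommGroup V] [Module (ZMod 2) V] [Finite V] (a c : V)
    (W : Submodule (ZMod 2) V) (hW : W ≤ Submodule.span (ZMod 2) {a, c}) : Nat.card W ≤ 4 := by
  classical
  have h1 : ∀ w : W, ∃ x : ZMod 2 × ZMod 2, (w : V) = x.1 • a + x.2 • c := by
    intro w
    obtain ⟨s, t, h⟩ := Submodule.mem_span_pair.1 (hW w.2)
    exact ⟨(s, t), h.symm⟩
  choose f hf using h1
  have hinj : Function.Injective f := by
    intro w w' h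
    apply Subtype.ext
    rw [hf w, hf w', h]
  have h2 := Nat.card_le_card_of_injective f hinj
  refine h2.trans ?_
  rw [Nat.card_prod, Nat.card_zmod]

/-- if product symbols on subgroups with at most four elements extend, quaternions add up -/
theorem add_of_products_four (S : QData) (hS : IsQuat S) (hfin : Finite S.G)
    (hMX : ProductsExtend 4 S) : AddQuat S := by
  classical
  obtain ⟨hcore, hPL, hout, hconv⟩ := Pool.Agent.W622.ETG.all_parts
  let _ : Module (ZMod 2) (Additive S.G) := AddCommGroup.zmodModule (n := 2) (by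
    intro x
    rw [two_smul]
    exact hS.exp2 x.toMul)
  have : Finite (Additive S.G) := hfin
  -- facts on `q`
  have q1 : ∀ a, S.q a 1 = S.zero := by
    intro a
    have := (hS.qs3 a 1 1).1 rfl
    rwa [mul_one] at this
  have qmul : ∀ a b c, S.q a b = S.zero → S.q a c = S.zero → S.q a (b * c) = S.zero := by
    intro a b c h1 h2
    exact (hS.qs3 a b c).1 (h1.trans h2.symm)
  set e : Additive S.G := Additive.ofMul S.neg with he
  have hsq : ∀ ω ∈ BRI_A S, ∀ a : Additive S.G, ω a a = ω a e := by
    intro ω hω a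
    have h1 : ω a (e + a) = 0 := hω a (e + a) (hS.qs1 a.toMul)
    rw [map_add] at h1
    exact (Pool.Agent.W622.ETC.add_eq_zero'.1 h1).symm
  have halt : EFam e (BRI_A S) := by
    intro ω hω
    refine ⟨fun a b => ?_, hsq ω hω⟩
    have h1 := hsq ω hω (a + b)
    simp only [map_add, LinearMap.add_apply] at h1
    rw [hsq ω hω a, hsq ω hω b] at h1
    have h2 : ω a b + ω b a = 0 := by linear_combination h1
    exact Pool.Agent.W622.ETC.add_eq_zero'.1 h2
  -- extension of symbols given by a product
  have hext : ∀ (W : Submodule (ZMod 2) (Additive S.G)), Nat.card W ≤ 4 →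
      ∀ (φ f : Dl (Additive S.G)),
      (∀ w ∈ W, φ w ≠ 0 → ∀ b : Additive S.G, S.q w.toMul b.toMul = S.zero → f b = 0) →
      ∃ ω ∈ BRI_A S, ∀ w ∈ W, ω w = φ w • f := by
    intro W hWc φ f hW
    let W' : Subgroup S.G :=
      { carrier := {x | Additive.ofMul x ∈ W}
        mul_mem' := fun {x y} hx hy => W.add_mem hx hy
        one_mem' := W.zero_mem
        inv_mem' := fun {x} hx => W.neg_mem hx }
    have hWc' : Nat.card W' ≤ 4 := hWc
    obtain ⟨χ', hχ, hχ'⟩ := hMX W' hWc' (fun x => φ (Additive.ofMul x))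
      (fun y => f (Additive.ofMul y)) (fun a b => by
        show φ (Additive.ofMul (a * b)) = _
        rw [ofMul_mul, map_add]) (fun a b => by
        show f (Additive.ofMul (a * b)) = _
        rw [ofMul_mul, map_add]) (by
        intro a ha b hab
        show φ (Additive.ofMul a) * f (Additive.ofMul b) = 0
        by_cases h0 : φ (Additive.ofMul a) = 0
        · rw [h0, zero_mul]
        · rw [hW _ ha h0 (Additive.ofMul b) hab, mul_zero])
    obtain ⟨ω, hω, hω'⟩ := BRI_form (χ := χ') (S := S) ⟨fun a _ b _ c => hχ.1 a b c,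
      fun a _ b c => hχ.2.1 a b c, fun a _ b => hχ.2.2 a b⟩
    refine ⟨ω, hω, fun w hw => ?_⟩
    ext b
    rw [hω', hχ' w.toMul hw]
    rfl
  -- the forms detect the zeros of `q`
  have hdet : ∀ a b : Additive S.G, (∀ ω ∈ BRI_A S, ω a b = 0) →
      S.q a.toMul b.toMul = S.zero := by
    intro a b hab
    by_contra hne
    let K : Submodule (ZMod 2) (Additive S.G) :=
      AddSubgroup.toZModSubmodule 2
        { carrier := {y : Additive S.G | S.q a.toMul y.toMul = S.zero}
          add_mem' := fun {x y} hx hy => qmul _ _ _ hx hy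
          zero_mem' := q1 _
          neg_mem' := fun {x} hx => by
            have : -x = x := by
              rw [neg_eq_iff_add_eq_zero]; exact vadd x
            rw [this]; exact hx }
    have hbK : b ∉ K := hne
    obtain ⟨f, hf1, hf2⟩ := Submodule.exists_le_ker_of_notMem hbK
    have ha0 : a ≠ 0 := by
      rintro rfl
      apply hne
      rw [hS.qs2]
      exact q1 _
    obtain ⟨φ, hφ⟩ := exists_ne_one ha0
    obtain ⟨ω, hω, hω'⟩ := hext (Submodule.span (ZMod 2) {a})
      (card_span_two a a _ (Submodule.span_mono (by simp))) φ f (by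
      intro w hw hφw y hy
      rcases span_one_mem.1 hw with rfl | rfl
      · exact absurd (map_zero φ) hφw
      · exact hf2 hy)
    have h1 := hab ω hω
    rw [hω' a (Submodule.mem_span_singleton_self a), hφ, one_smul] at h1
    exact hf1 h1
  -- extension in terms of the family
  have hPE : ∀ W : Submodule (ZMod 2) (Additive S.G), Nat.card W ≤ 4 → PE (BRI_A S) W := by
    intro W hW φ f h
    refine hext W hW φ f fun w hw hφ b hb => h w hw hφ b fun ω hω => hω w b hb
  have hL : Linked (BRI_A S) := by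
    have h1 := linked_of_PE halt ⊤ (by
      intro a c
      apply hPE
      apply card_span_two a c
      rw [Submodule.dualCoannihilator_top]
      simp)
    rwa [res_top] at h1
  -- equality of quaternions
  have heq : ∀ a b c d : Additive S.G, (∀ ω ∈ BRI_A S, ω a b = ω c d) ↔
      S.q a.toMul b.toMul = S.q c.toMul d.toMul := by
    intro a b c d
    constructor
    · intro h
      obtain ⟨z, h1, h2, h3⟩ := hPL (Additive S.G) e (BRI_A S) halt hL a c b d h
      have e1 := (hS.qs3 a.toMul b.toMul z.toMul).2 (hdet a (b + z) h1)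
      have e2 := (hS.qs3 c.toMul d.toMul z.toMul).2 (hdet c (d + z) h2)
      have e3 := hdet (a + c) z h3
      rw [hS.qs2] at e3
      have e4 := (hS.qs3 z.toMul a.toMul c.toMul).2 e3
      rw [e1, e2, hS.qs2 a.toMul, hS.qs2 c.toMul, e4]
    · intro h ω hω
      obtain ⟨x, hx1, hx2⟩ := hS.qs4 _ _ _ _ h
      have e1 : ω a (b + Additive.ofMul x) = 0 := hω _ _ ((hS.qs3 _ _ _).1 hx1)
      have e2 : ω c (d + Additive.ofMul x) = 0 := hω _ _ ((hS.qs3 _ _ _).1 hx2)
      have e3 : S.q x a.toMul = S.q x c.toMul := by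
        rw [hS.qs2 x, hS.qs2 x, ← hx1, ← hx2, h]
      have e4 : ω (Additive.ofMul x) (a + c) = 0 := hω _ _ ((hS.qs3 _ _ _).1 e3)
      rw [map_add] at e1 e2 e4
      have f1 := Pool.Agent.W622.ETC.add_eq_zero'.1 e1
      have f2 := Pool.Agent.W622.ETC.add_eq_zero'.1 e2
      have f4 := Pool.Agent.W622.ETC.add_eq_zero'.1 e4
      rw [f1, f2, (halt ω hω).symm, f4, (halt ω hω).symm]
  refine ⟨BRI_A S → ZMod 2, inferInstance,
    fun a b ω => ω.1 (Additive.ofMul a) (Additive.ofMul b), ?_, ?_, ?_⟩
  · intro b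
    funext ω
    exact z2add.2 rfl
  · intro a b c
    funext ω
    exact map_add (ω.1 (Additive.ofMul a)) (Additive.ofMul b) (Additive.ofMul c)
  · intro a b c d
    refine Iff.trans ?_ (heq (Additive.ofMul a) (Additive.ofMul b) (Additive.ofMul c)
      (Additive.ofMul d))
    constructor
    · intro h ω hω
      exact congrFun h ⟨ω, hω⟩
    · intro h
      funext ω
      exact h ω.1 ω.2

end Pool.Agent.HP953.EH
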