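import Mathlib
import Pool.Agent.HP953.EH.Add
import Pool.Agent.Results.MP_d26ff6_al.SymbolExtension

set_option autoImplicit false

/-! # Retracts of structures of elementary type -/

namespace Pool.Agent.HP953.EH

open Pool.Agent.H315R3.ETC Pool.Agent.TH673.VG Pool.Agent.Y920.QB
open Pool.Agent.Results.MP_d26ff6_al.SymbolExtension (IsSymbol SymbolsExtend)

/-- `T` is a retract of `S`: there are homomorphisms `ι : T → S` and `ρ : S → T` of the groups with
`ρ ι = 1`, such that `ι` preserves orthogonality and `q(ι t, g) = 0` implies `q(t, ρ g) = 0` -/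
def Retract (T S : QData) : Prop :=
  ∃ (ι : T.G →* S.G) (ρ : S.G →* T.G), (∀ t, ρ (ι t) = t) ∧
    (∀ t u, T.q t u = T.zero → S.q (ι t) (ι u) = S.zero) ∧
    ∀ t g, S.q (ι t) g = S.zero → T.q t (ρ g) = T.zero

theorem elem_of_retract {T S : QData} (hT : IsQuat T) (hfT : Finite T.G) (hS : IsQuat S)
    (hfS : Finite S.G) (hES : Elem S) (hR : Retract T S) : Elem T := by
  obtain ⟨ι, ρ, hρ, h1, h2⟩ := hR
  have hext := (Pool.Agent.Results.MP_d26ff6_al.SymbolExtension.result S hS hfS).1.1 hES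
  refine (Pool.Agent.Results.MP_d26ff6_al.SymbolExtension.result T hT hfT).1.2 ?_
  intro W χ ⟨hχ1, hχ2, hχ3⟩
  obtain ⟨χ', ⟨g1, g2, g3⟩, g4⟩ := hext (W.map ι) (fun a b => χ (ρ a) (ρ b)) (by
    refine ⟨?_, ?_, ?_⟩
    · rintro _ ⟨a, ha, rfl⟩ _ ⟨b, hb, rfl⟩ c
      show χ (ρ (ι a * ι b)) (ρ c) = χ (ρ (ι a)) (ρ c) + χ (ρ (ι b)) (ρ c)
      rw [map_mul, hρ, hρ]
      exact hχ1 a ha b hb _
    · rintro _ ⟨a, ha, rfl⟩ b c
      show χ (ρ (ι a)) (ρ (b * c)) = χ (ρ (ι a)) (ρ b) + χ (ρ (ι a)) (ρ c)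
      rw [map_mul, hρ]
      exact hχ2 a ha _ _
    · rintro _ ⟨a, ha, rfl⟩ b hb
      show χ (ρ (ι a)) (ρ b) = 0
      rw [hρ]
      exact hχ3 a ha _ (h2 a b hb))
  refine ⟨fun t u => χ' (ι t) (ι u), ⟨?_, ?_, ?_⟩, ?_⟩
  · intro a _ b _ c
    show χ' (ι (a * b)) (ι c) = _
    rw [map_mul]
    exact g1 _ (Subgroup.mem_top _) _ (Subgroup.mem_top _) _
  · intro a _ b c
    show χ' (ι a) (ι (b * c)) = _
    rw [map_mul]
    exact g2 _ (Subgroup.mem_top _) _ _
  · intro a _ b hab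
    exact g3 _ (Subgroup.mem_top _) _ (h1 a b hab)
  · intro a ha b
    show χ' (ι a) (ι b) = χ a b
    rw [g4 (ι a) (Subgroup.mem_map_of_mem ι ha) (ι b), hρ, hρ]

theorem retract_left (S T : QData) (hT : IsQuat T) : Retract S (prod S T) := by
  refine ⟨(MonoidHom.inl S.G T.G : S.G →* S.G × T.G), (MonoidHom.fst S.G T.G : S.G × T.G →* S.G),
    fun _ => rfl, ?_, ?_⟩
  · intro t u htu
    show ((S.q t u, T.q 1 1) : S.Q × T.Q) = (S.zero, T.zero)
    rw [htu, qone hT]
  · intro (t : S.G) (g : S.G × T.G) (hg : ((S.q t g.1, T.q 1 g.2) : S.Q × T.Q) = (S.zero, T.zero))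
    exact (Prod.mk_inj.1 hg).1

theorem retract_right (S T : QData) (hS : IsQuat S) : Retract T (prod S T) := by
  refine ⟨(MonoidHom.inr S.G T.G : T.G →* S.G × T.G), (MonoidHom.snd S.G T.G : S.G × T.G →* T.G),
    fun _ => rfl, ?_, ?_⟩
  · intro t u htu
    show ((S.q 1 1, T.q t u) : S.Q × T.Q) = (S.zero, T.zero)
    rw [htu, qone hS]
  · intro (t : T.G) (g : S.G × T.G) (hg : ((S.q 1 g.1, T.q t g.2) : S.Q × T.Q) = (S.zero, T.zero))
    exact (Prod.mk_inj.1 hg).2

theorem retract_ext (T : QData) : Retract T (ext T) := by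
  refine ⟨(MonoidHom.inl T.G C2 : T.G →* T.G × C2), (MonoidHom.fst T.G C2 : T.G × C2 →* T.G),
    fun _ => rfl, ?_, ?_⟩
  · intro t u htu
    show ((T.q t u, pw (pw T.neg 1) 1 * pw t 1 * pw u 1) : T.Q × T.G) = (T.zero, 1)
    rw [htu]
    simp [pw]
  · intro (t : T.G) (g : T.G × C2)
      (hg : ((T.q t g.1, pw (pw T.neg 1) g.2 * pw t g.2 * pw g.1 1) : T.Q × T.G) = (T.zero, 1))
    exact (Prod.mk_inj.1 hg).1

/-- a substructure `T` with `G = T T^⊥` is a retract -/
theorem retract_of_perp {T S : QData} (hT : IsQuat T) (hS : IsQuat S) {ι : T.G →* S.G}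
    (hE : Emb T S ι) (hG : ∀ g : S.G, ∃ t : T.G, ∀ u : T.G, S.q (ι u) (g * ι t) = S.zero)
    (hnd : ∀ t : T.G, (∀ u : T.G, T.q u t = T.zero) → t = 1) : Retract T S := by
  choose f hf using hG
  have huni : ∀ (g : S.G) (t : T.G), (∀ u : T.G, S.q (ι u) (g * ι t) = S.zero) → f g = t := by
    intro g t ht
    have h1 : f g * t = 1 := by
      refine hnd _ fun u => ?_
      rw [hE.zero, map_mul]
      have e1 := hf g u
      have e2 := ht u
      have e3 : S.q (ι u) (g * ι (f g)) = S.q (ι u) (g * ι t) := e1.trans e2.symm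
      have e4 := (hS.qs3 _ _ _).1 e3
      have e5 : g * ι (f g) * (g * ι t) = ι (f g) * ι t := by
        rw [mul_mul_mul_comm, hS.exp2, one_mul]
      rwa [e5] at e4
    have h2 : t⁻¹ = t := inv_eq_of_mul_eq_one_left (hT.exp2 t)
    rw [eq_comm, ← h2]
    exact (eq_inv_of_mul_eq_one_left h1).symm
  have hmul : ∀ u g g' : S.G, S.q u g = S.zero → S.q u g' = S.zero → S.q u (g * g') = S.zero :=
    fun u g g' h1 h2 => (hS.qs3 _ _ _).1 (h1.trans h2.symm)
  let ρ : S.G →* T.G :=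
    { toFun := f
      map_one' := by
        refine huni _ _ fun u => ?_
        rw [map_one, one_mul]
        exact qone hS _
      map_mul' := by
        intro g g'
        refine huni _ _ fun u => ?_
        rw [map_mul, mul_mul_mul_comm]
        exact hmul _ _ _ (hf g u) (hf g' u) }
  refine ⟨ι, ρ, ?_, fun t u h => (hE.zero t u).1 h, ?_⟩
  · intro t
    refine huni _ _ fun u => ?_
    rw [← map_mul, hT.exp2, map_one]
    exact qone hS _
  · intro t g hg
    show T.q t (f g) = T.zero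
    rw [hE.zero]
    have e1 := hf g t
    have e2 := (hS.qs3 _ _ _).1 (hg.trans e1.symm)
    rwa [← mul_assoc, hS.exp2, one_mul] at e2

end Pool.Agent.HP953.EH
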