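import Mathlib
import Pool.Agent.HP953.EH.Retract

set_option autoImplicit false

/-! # Subquotients of structures of elementary type -/

namespace Pool.Agent.HP953.EH

open Pool.Agent.H315R3.ETC Pool.Agent.TH673.VG Pool.Agent.Y920.QB
open Pool.Agent.Results.MP_d26ff6_al.SymbolExtension (IsSymbol SymbolsExtend)

/-- there are a homomorphism `ρ` from the group of `S` to the group of `T` and a subgroup `H` of
the group of `S` with `ρ(H) = T`, such that `q(h, g) = 0` with `h ∈ H` implies `q(ρ h, ρ g) = 0`,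
and `q(t, u) = 0` implies `q(h, k) = 0` for some `h, k ∈ H` with `ρ h = t`, `ρ k = u` -/
def SubQuot (T S : QData) : Prop :=
  ∃ (H : Subgroup S.G) (ρ : S.G →* T.G), (∀ t, ∃ h ∈ H, ρ h = t) ∧
    (∀ h ∈ H, ∀ g, S.q h g = S.zero → T.q (ρ h) (ρ g) = T.zero) ∧
    ∀ t u, T.q t u = T.zero → ∃ h ∈ H, ∃ k ∈ H, ρ h = t ∧ ρ k = u ∧ S.q h k = S.zero

/-- `T` is a quotient of `S`: there is a surjective homomorphism `π` from the group of `S` to the
group of `T` such that `q(t,u) = 0` if and only if `q(a,b) = 0` for some `a, b` with `π a = t`,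
`π b = u` -/
def Quotient (T S : QData) : Prop :=
  ∃ π : S.G →* T.G, Function.Surjective π ∧
    ∀ t u, T.q t u = T.zero ↔ ∃ a b, π a = t ∧ π b = u ∧ S.q a b = S.zero

theorem subquot_of_quotient {T S : QData} (h : Quotient T S) : SubQuot T S := by
  obtain ⟨π, h1, h2⟩ := h
  refine ⟨⊤, π, fun t => ?_, fun a _ b hab => (h2 _ _).2 ⟨a, b, rfl, rfl, hab⟩, ?_⟩
  · obtain ⟨a, ha⟩ := h1 t
    exact ⟨a, Subgroup.mem_top _, ha⟩
  · intro t u htu
    obtain ⟨a, b, ha, hb, hab⟩ := (h2 t u).1 htu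
    exact ⟨a, Subgroup.mem_top _, b, Subgroup.mem_top _, ha, hb, hab⟩

theorem subquot_of_retract {T S : QData} (h : Retract T S) : SubQuot T S := by
  obtain ⟨ι, ρ, h0, h1, h2⟩ := h
  refine ⟨ι.range, ρ, fun t => ⟨ι t, ⟨t, rfl⟩, h0 t⟩, ?_, ?_⟩
  · rintro _ ⟨t, rfl⟩ g hg
    rw [h0]
    exact h2 t g hg
  · intro t u htu
    exact ⟨ι t, ⟨t, rfl⟩, ι u, ⟨u, rfl⟩, h0 t, h0 u, h1 t u htu⟩

theorem sym_symm {S : QData} (hS : IsQuat S) {χ : S.G → S.G → ZMod 2} (hχ : IsSymbol S ⊤ χ)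
    (a b : S.G) : χ a b = χ b a := by
  obtain ⟨h1, h2, h3⟩ := hχ
  have m : ∀ x : S.G, x ∈ (⊤ : Subgroup S.G) := fun x => Subgroup.mem_top x
  have e0 : χ (a * b) (S.neg * (a * b)) = 0 := h3 _ (m _) _ (hS.qs1 _)
  have e1 : χ a (S.neg * (a * b)) = χ a b := by
    rw [← mul_assoc, h2 _ (m _), h3 a (m _) _ (hS.qs1 _), zero_add]
  have e2 : χ b (S.neg * (a * b)) = χ b a := by
    rw [mul_comm a b, ← mul_assoc, h2 _ (m _), h3 b (m _) _ (hS.qs1 _), zero_add]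
  rw [h1 _ (m _) _ (m _), e1, e2] at e0
  have : ∀ x y : ZMod 2, x + y = 0 → x = y := by decide
  exact this _ _ e0

theorem elem_of_subquot {T S : QData} (hT : IsQuat T) (hfT : Finite T.G) (hS : IsQuat S)
    (hfS : Finite S.G) (hES : Elem S) (hR : SubQuot T S) : Elem T := by
  obtain ⟨H, ρ, hsur, hA, hB⟩ := hR
  have hext := (Pool.Agent.Results.MP_d26ff6_al.SymbolExtension.result S hS hfS).1.1 hES
  refine (Pool.Agent.Results.MP_d26ff6_al.SymbolExtension.result T hT hfT).1.2 ?_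
  intro W χ ⟨hχ1, hχ2, hχ3⟩
  have hz : ∀ x y : ZMod 2, x + y = 0 → x = y := by decide
  have hχ0 : ∀ c, χ 1 c = 0 := by
    intro c
    have := hχ1 1 W.one_mem 1 W.one_mem c
    rw [mul_one] at this
    simpa using this
  obtain ⟨χ', hχ', g4⟩ := hext (W.comap ρ ⊓ H) (fun a b => χ (ρ a) (ρ b)) (by
    refine ⟨?_, ?_, ?_⟩
    · rintro a ⟨ha, -⟩ b ⟨hb, -⟩ c
      show χ (ρ (a * b)) (ρ c) = χ (ρ a) (ρ c) + χ (ρ b) (ρ c)
      rw [map_mul]
      exact hχ1 _ ha _ hb _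
    · rintro a ⟨ha, -⟩ b c
      show χ (ρ a) (ρ (b * c)) = χ (ρ a) (ρ b) + χ (ρ a) (ρ c)
      rw [map_mul]
      exact hχ2 _ ha _ _
    · rintro a ⟨ha, haH⟩ b hb
      show χ (ρ a) (ρ b) = 0
      exact hχ3 _ ha _ (hA a haH b hb))
  have hsymm := fun a b => sym_symm hS hχ' a b
  obtain ⟨g1, g2, g3⟩ := hχ'
  have m : ∀ x : S.G, x ∈ (⊤ : Subgroup S.G) := fun x => Subgroup.mem_top x
  -- the kernel of `ρ` on `H` is in the radical of `χ'`
  have hK : ∀ k ∈ H, ρ k = 1 → ∀ x, χ' k x = 0 := by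
    intro k hk hk1 x
    have hkW : k ∈ W.comap ρ ⊓ H := by
      refine ⟨?_, hk⟩
      show ρ k ∈ W
      rw [hk1]
      exact W.one_mem
    rw [g4 k hkW x, hk1]
    exact hχ0 _
  have hleft : ∀ h ∈ H, ∀ k ∈ H, ρ h = ρ k → ∀ x, χ' h x = χ' k x := by
    intro h hh k hk hhk x
    apply hz
    rw [← g1 h (m _) k (m _)]
    refine hK _ (H.mul_mem hh hk) ?_ x
    rw [map_mul, hhk, hT.exp2]
  have hboth : ∀ h ∈ H, ∀ k ∈ H, ∀ h' ∈ H, ∀ k' ∈ H, ρ h = ρ h' → ρ k = ρ k' →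
      χ' h k = χ' h' k' := by
    intro h hh k hk h' hh' k' hk' e1 e2
    rw [hleft h hh h' hh' e1, hsymm h' k, hleft k hk k' hk' e2, hsymm]
  choose s hsH hsρ using hsur
  refine ⟨fun t u => χ' (s t) (s u), ⟨?_, ?_, ?_⟩, ?_⟩
  · intro a _ b _ c
    show χ' (s (a * b)) (s c) = χ' (s a) (s c) + χ' (s b) (s c)
    rw [← g1 _ (m _) _ (m _)]
    refine hleft _ (hsH _) _ (H.mul_mem (hsH _) (hsH _)) ?_ _
    rw [map_mul, hsρ, hsρ, hsρ]
  · intro a _ b c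
    show χ' (s a) (s (b * c)) = χ' (s a) (s b) + χ' (s a) (s c)
    rw [← g2 _ (m _)]
    refine hboth _ (hsH _) _ (hsH _) _ (hsH _) _ (H.mul_mem (hsH _) (hsH _)) rfl ?_
    rw [map_mul, hsρ, hsρ, hsρ]
  · intro a _ b hab
    obtain ⟨h, hh, k, hk, e1, e2, e3⟩ := hB a b hab
    show χ' (s a) (s b) = 0
    rw [hboth _ (hsH a) _ (hsH b) h hh k hk (by rw [hsρ, e1]) (by rw [hsρ, e2])]
    exact g3 _ (m _) _ e3
  · intro a ha b
    show χ' (s a) (s b) = χ a b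
    have hsW : s a ∈ W.comap ρ ⊓ H := by
      refine ⟨?_, hsH a⟩
      show ρ (s a) ∈ W
      rw [hsρ]
      exact ha
    rw [g4 _ hsW, hsρ, hsρ]

end Pool.Agent.HP953.EH
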