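import Pool.Agent.HP953.EH.Eight
import Pool.Agent.HP953.EH.Quot

set_option autoImplicit false

/-! # The structures `S_U`

For a subgroup `U` let `q_U(a,b)` be the family of all values `χ(a,b)` of symbols `χ` with
`χ(u,·) = 0` for `u ∈ U`.  Some proofs follow `Pool.Agent.TH188.ET.EightM`. -/

namespace Pool.Agent.HP953.EH

open Pool.Agent.H315R3.ETC Pool.Agent.W622.ETG Module
open Pool.Agent.TH188.ET8 (PE linked_of_PE isQuat_QD QD_eq QD_zero Closed PE_of_MX SmallProd
  card_span_three exists_form)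

/-- the data `S_U = (G, -1, q_U)`, where `q_U(a,b)` is the family of the values `χ(a,b)` of all
symbols `χ` with `χ(u,·) = 0` for all `u ∈ U` (for a field: the class of the quaternion algebra
`(a,b)` modulo the classes of all `(u,x)`, `u ∈ U`; for `U = {1,u}` this is the class of `(a,b)`
after adjoining a square root of `u`) -/
def modU (S : QData) (U : Subgroup S.G) : QData :=
  ⟨S.G, {χ : S.G → S.G → ZMod 2 // Sym S χ ∧ ∀ u ∈ U, ∀ x, χ u x = 0} → ZMod 2, S.neg,
    fun a b χ => χ.1 a b, fun _ => 0⟩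

theorem symm_of_sym {S : QData} (hS : IsQuat S) {χ : S.G → S.G → ZMod 2} (hχ : Sym S χ)
    (a b : S.G) : χ a b = χ b a :=
  sym_symm hS ⟨fun a _ b _ c => hχ.1 a b c, fun a _ b c => hχ.2.1 a b c,
    fun a _ b => hχ.2.2 a b⟩ a b

theorem addQuat_over (S : QData) (U : Subgroup S.G) : AddQuat (modU S U) := by
  refine ⟨{χ : S.G → S.G → ZMod 2 // Sym S χ ∧ ∀ u ∈ U, ∀ x, χ u x = 0} → ZMod 2, inferInstance,
    fun (a b : S.G) χ => χ.1 a b, ?_, ?_, ?_⟩
  · intro b
    funext χ
    exact z2add.2 rfl
  · intro (a : S.G) (b : S.G) (c : S.G)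
    funext χ
    exact χ.2.1.2.1 a b c
  · intro a b c d
    exact Iff.rfl

theorem efam {S : QData} (hS : IsQuat S) [Module (ZMod 2) (Additive S.G)] :
    EFam (Additive.ofMul S.neg) (BRI_A S) := by
  set e : Additive S.G := Additive.ofMul S.neg with he
  have hsq : ∀ ω ∈ BRI_A S, ∀ a : Additive S.G, ω a a = ω a e := by
    intro ω hω a
    have h1 : ω a (e + a) = 0 := hω a (e + a) (hS.qs1 a.toMul)
    rw [map_add] at h1
    exact (Pool.Agent.W622.ETC.add_eq_zero'.1 h1).symm
  intro ω hω
  refine ⟨fun a b => ?_, hsq ω hω⟩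
  have h1 := hsq ω hω (a + b)
  simp only [map_add, LinearMap.add_apply] at h1
  rw [hsq ω hω a, hsq ω hω b] at h1
  have h2 : ω a b + ω b a = 0 := by linear_combination h1
  exact Pool.Agent.W622.ETC.add_eq_zero'.1 h2

theorem sym_of_form {S : QData} [Module (ZMod 2) (Additive S.G)] {ω : Frm (Additive S.G)}
    (hω : ω ∈ BRI_A S) : Sym S (fun x y => ω (Additive.ofMul x) (Additive.ofMul y)) := by
  refine ⟨?_, ?_, ?_⟩
  · intro a b c
    show ω (Additive.ofMul (a * b)) (Additive.ofMul c) = _
    rw [ofMul_mul, map_add, LinearMap.add_apply]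
  · intro a b c
    show ω (Additive.ofMul a) (Additive.ofMul (b * c)) = _
    rw [ofMul_mul, map_add]
  · intro a b hab
    exact hω (Additive.ofMul a) (Additive.ofMul b) hab

theorem form_of_sym {S : QData} [Module (ZMod 2) (Additive S.G)] {χ : S.G → S.G → ZMod 2}
    (hχ : Sym S χ) : ∃ ω ∈ BRI_A S, ∀ a b : Additive S.G, ω a b = χ a.toMul b.toMul :=
  BRI_form ⟨fun a _ b _ c => hχ.1 a b c, fun a _ b c => hχ.2.1 a b c, fun a _ b => hχ.2.2 a b⟩

/-- the subgroup `U` and the space of functionals `X` are related -/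
def Rel (S : QData) [Module (ZMod 2) (Additive S.G)] (U : Subgroup S.G)
    (X : DSub (Additive S.G)) : Prop :=
  ∀ ω ∈ BRI_A S, (∀ x, ω x ∈ X) ↔ ∀ u ∈ U, ∀ x : S.G, ω (Additive.ofMul u) (Additive.ofMul x) = 0

/-- if `S_U` is a quaternionic structure, the family of forms killing `U` is linked -/
theorem linked_of_over {S : QData} [Module (ZMod 2) (Additive S.G)] {U : Subgroup S.G}
    {X : DSub (Additive S.G)} (hUX : Rel S U X)
    (hO : IsQuat (modU S U)) : Linked (res (BRI_A S) X) := by
  have hPr : PairExtend (modU S U) := pair_of_add hO (addQuat_over S U)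
  have hku : ∀ ω ∈ res (BRI_A S) X, ∀ u ∈ U, ∀ x : S.G,
      ω (Additive.ofMul u) (Additive.ofMul x) = 0 := fun ω hω => (hUX ω hω.1).1 hω.2
  intro ω hω η hη a c hac
  obtain ⟨χ, hχ, h1, h2⟩ := hPr a.toMul c.toMul (fun x => ω a (Additive.ofMul x))
    (fun x => ω a (Additive.ofMul x))
    (fun (x : S.G) (y : S.G) => map_add (ω a) (Additive.ofMul x) (Additive.ofMul y))
    (fun (x : S.G) (y : S.G) => map_add (ω a) (Additive.ofMul x) (Additive.ofMul y))
    (fun x hx => congrFun hx ⟨_, sym_of_form hω.1, hku ω hω⟩)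
    (fun x hx => by
      show ω a (Additive.ofMul x) = 0
      rw [hac]
      exact congrFun hx ⟨_, sym_of_form hη.1, hku η hη⟩)
    (fun _ _ => rfl)
  have hχS : Sym S χ := by
    refine ⟨hχ.1, hχ.2.1, fun x y hxy => hχ.2.2 x y ?_⟩
    show (fun (χ : {χ : S.G → S.G → ZMod 2 // Sym S χ ∧ ∀ u ∈ U, ∀ x, χ u x = 0}) => χ.1 x y) = fun _ => 0
    funext ψ
    exact ψ.2.1.2.2 x y hxy
  have hχu : ∀ u ∈ U, ∀ x : S.G, χ u x = 0 := by
    intro u hu x
    refine hχ.2.2 u x ?_
    show (fun (χ : {χ : S.G → S.G → ZMod 2 // Sym S χ ∧ ∀ u ∈ U, ∀ x, χ u x = 0}) => χ.1 u x) = fun _ => 0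
    funext ψ
    exact ψ.2.2 u hu x
  obtain ⟨ζ, hζ, hζχ⟩ := form_of_sym hχS
  refine ⟨ζ, ⟨hζ, (hUX ζ hζ).2 fun u hu x => ?_⟩, ?_, ?_⟩
  · rw [hζχ]
    exact hχu u hu x
  · ext x
    rw [hζχ]
    exact h1 x.toMul
  · ext x
    rw [hζχ]
    exact h2 x.toMul

/-- if the family of forms killing `U` is linked, `S_U` is a quaternionic structure -/
theorem over_of_linked {S : QData} (hS : IsQuat S) (hfin : Finite S.G)
    [Module (ZMod 2) (Additive S.G)] {U : Subgroup S.G} {X : DSub (Additive S.G)}
    (hUX : Rel S U X) (hL : Linked (res (BRI_A S) X)) : IsQuat (modU S U) := by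
  have hPL := Pool.Agent.W622.ETG.all_parts.2.1
  have hEF := efam hS
  have hfin' : Finite (Additive S.G) := hfin
  have hEF' : EFam (Additive.ofMul S.neg) (res (BRI_A S) X) := fun ω hω => hEF ω hω.1
  refine ⟨hS.exp2, ?_, ?_, ?_, ?_⟩
  · intro (a : S.G)
    show (fun (χ : {χ : S.G → S.G → ZMod 2 // Sym S χ ∧ ∀ u ∈ U, ∀ x, χ u x = 0}) => χ.1 a (S.neg * a)) =
      fun _ => 0
    funext χ
    exact χ.2.1.2.2 _ _ (hS.qs1 a)
  · intro (a : S.G) (b : S.G)
    show (fun (χ : {χ : S.G → S.G → ZMod 2 // Sym S χ ∧ ∀ u ∈ U, ∀ x, χ u x = 0}) => χ.1 a b) =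
      fun χ => χ.1 b a
    funext χ
    exact symm_of_sym hS χ.2.1 a b
  · intro (a : S.G) (b : S.G) (c : S.G)
    show (fun (χ : {χ : S.G → S.G → ZMod 2 // Sym S χ ∧ ∀ u ∈ U, ∀ x, χ u x = 0}) => χ.1 a b) =
      (fun χ => χ.1 a c) ↔
      (fun (χ : {χ : S.G → S.G → ZMod 2 // Sym S χ ∧ ∀ u ∈ U, ∀ x, χ u x = 0}) => χ.1 a (b * c)) =
      fun _ => 0
    constructor
    · intro h
      funext χ
      have := congrFun h χ
      rw [χ.2.1.2.1]
      exact z2add.2 this
    · intro h
      funext χ
      have := congrFun h χ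
      rw [χ.2.1.2.1] at this
      exact z2add.1 this
  · intro (a : S.G) (b : S.G) (c : S.G) (d : S.G) h
    obtain ⟨z, hz1, hz2, -⟩ := hPL (Additive S.G) _ _ hEF' hL (Additive.ofMul a)
      (Additive.ofMul c) (Additive.ofMul b) (Additive.ofMul d) (fun ω hω =>
        congrFun h ⟨_, sym_of_form hω.1, (hUX ω hω.1).1 hω.2⟩)
    have hform : ∀ χ, Sym S χ → (∀ u ∈ U, ∀ x, χ u x = 0) → ∃ ω ∈ res (BRI_A S) X,
        ∀ a b : Additive S.G, ω a b = χ a.toMul b.toMul := by
      intro χ hχ hχu
      obtain ⟨ω, hω, hωχ⟩ := form_of_sym hχ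
      refine ⟨ω, ⟨hω, (hUX ω hω).2 fun u hu x => ?_⟩, hωχ⟩
      rw [hωχ]
      exact hχu u hu x
    refine ⟨z.toMul, ?_, ?_⟩
    · show (fun (χ : {χ : S.G → S.G → ZMod 2 // Sym S χ ∧ ∀ u ∈ U, ∀ x, χ u x = 0}) => χ.1 a b) =
        fun χ => χ.1 a z.toMul
      funext χ
      obtain ⟨ω, hω, hωχ⟩ := hform χ.1 χ.2.1 χ.2.2
      have := hz1 ω hω
      rw [map_add, hωχ, hωχ] at this
      exact z2add.1 this
    · show (fun (χ : {χ : S.G → S.G → ZMod 2 // Sym S χ ∧ ∀ u ∈ U, ∀ x, χ u x = 0}) => χ.1 c d) =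
        fun χ => χ.1 c z.toMul
      funext χ
      obtain ⟨ω, hω, hωχ⟩ := hform χ.1 χ.2.1 χ.2.2
      have := hz2 ω hω
      rw [map_add, hωχ, hωχ] at this
      exact z2add.1 this

theorem rel_single {S : QData} (hS : IsQuat S) [Module (ZMod 2) (Additive S.G)] (u : S.G) :
    Rel S (Subgroup.zpowers u) (ann (Additive.ofMul u)) := by
  intro ω hω
  have hsy := (efam hS ω hω).symm
  constructor
  · intro h v hv x
    obtain ⟨n, rfl⟩ := Subgroup.mem_zpowers_iff.1 hv
    have h0 : ω (Additive.ofMul u) = 0 := by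
      ext y
      rw [hsy]
      exact h y
    rw [ofMul_zpow, map_zsmul, h0, smul_zero, LinearMap.zero_apply]
  · intro h x
    show ω x (Additive.ofMul u) = 0
    rw [hsy]
    exact h u (Subgroup.mem_zpowers u) x.toMul

/-- the functionals vanishing on `U` -/
def annU {S : QData} [Module (ZMod 2) (Additive S.G)] (U : Subgroup S.G) : DSub (Additive S.G) where
  carrier := {g | ∀ u ∈ U, g (Additive.ofMul u) = 0}
  add_mem' := fun {g h} hg hh u hu => by rw [LinearMap.add_apply, hg u hu, hh u hu, add_zero]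
  zero_mem' := fun u _ => rfl
  smul_mem' := fun c g hg u hu => by rw [LinearMap.smul_apply, hg u hu, smul_zero]

theorem rel_annU {S : QData} (hS : IsQuat S) [Module (ZMod 2) (Additive S.G)] (U : Subgroup S.G) :
    Rel S U (annU U) := by
  intro ω hω
  have hsy := (efam hS ω hω).symm
  constructor
  · intro h u hu x
    rw [hsy]
    exact h (Additive.ofMul x) u hu
  · intro h x u hu
    rw [hsy]
    exact h u hu x.toMul

/-- the common zeros of the functionals in `X` -/
def zeroX {S : QData} [Module (ZMod 2) (Additive S.G)] (X : DSub (Additive S.G)) :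
    Subgroup S.G where
  carrier := {x | ∀ g ∈ X, g (Additive.ofMul x) = 0}
  mul_mem' := fun {a b} ha hb g hg => by rw [ofMul_mul, map_add, ha g hg, hb g hg, add_zero]
  one_mem' := fun g _ => by rw [ofMul_one, map_zero]
  inv_mem' := fun {a} ha g hg => by rw [ofMul_inv, map_neg, ha g hg, neg_zero]

theorem rel_zeroX {S : QData} (hS : IsQuat S) (hfin : Finite S.G)
    [Module (ZMod 2) (Additive S.G)] (X : DSub (Additive S.G)) : Rel S (zeroX X) X := by
  have hfin' : Finite (Additive S.G) := hfin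
  intro ω hω
  have hsy := (efam hS ω hω).symm
  constructor
  · intro h u hu x
    rw [hsy]
    exact hu _ (h (Additive.ofMul x))
  · intro h x
    refine mem_of_coann fun b hb => ?_
    rw [hsy]
    exact h b.toMul hb x.toMul

/-- if product symbols on subgroups with at most eight elements extend, all `S_u` are
quaternionic structures -/
theorem over_of_products (S : QData) (hS : IsQuat S) (hfin : Finite S.G) (hMX : SmallProd S)
    (u : S.G) : IsQuat (modU S (Subgroup.zpowers u)) := by
  classical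
  obtain ⟨-, hPL, -, -⟩ := Pool.Agent.W622.ETG.all_parts
  let _ : Module (ZMod 2) (Additive S.G) := AddCommGroup.zmodModule (n := 2) (by
    intro x
    rw [two_smul]
    exact hS.exp2 x.toMul)
  have : Finite (Additive S.G) := hfin
  -- facts on `q`
  have q1 : ∀ a, S.q a 1 = S.zero := by
    intro a
    have := (hS.qs3 a 1 1).1 rfl
    rwa [mul_one] at this
  have qmul : ∀ a b c, S.q a b = S.zero → S.q a c = S.zero → S.q a (b * c) = S.zero := by
    intro a b c h1 h2
    exact (hS.qs3 a b c).1 (h1.trans h2.symm)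
  set e : Additive S.G := Additive.ofMul S.neg with he
  have hsq : ∀ ω ∈ BRI_A S, ∀ a : Additive S.G, ω a a = ω a e := by
    intro ω hω a
    have h1 : ω a (e + a) = 0 := hω a (e + a) (hS.qs1 a.toMul)
    rw [map_add] at h1
    exact (Pool.Agent.W622.ETC.add_eq_zero'.1 h1).symm
  have halt : EFam e (BRI_A S) := by
    intro ω hω
    refine ⟨fun a b => ?_, hsq ω hω⟩
    have h1 := hsq ω hω (a + b)
    simp only [map_add, LinearMap.add_apply] at h1
    rw [hsq ω hω a, hsq ω hω b] at h1
    have h2 : ω a b + ω b a = 0 := by linear_combination h1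
    exact Pool.Agent.W622.ETC.add_eq_zero'.1 h2
  -- extension of symbols given by a product
  have hext : ∀ (W : Submodule (ZMod 2) (Additive S.G)), Nat.card W ≤ 8 →
      ∀ (φ f : Dl (Additive S.G)),
      (∀ w ∈ W, φ w ≠ 0 → ∀ b : Additive S.G, S.q w.toMul b.toMul = S.zero → f b = 0) →
      ∃ ω ∈ BRI_A S, ∀ w ∈ W, ω w = φ w • f := by
    intro W hWc φ f hW
    let W' : Subgroup S.G :=
      { carrier := {x | Additive.ofMul x ∈ W}
        mul_mem' := fun {x y} hx hy => W.add_mem hx hy
        one_mem' := W.zero_mem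
        inv_mem' := fun {x} hx => W.neg_mem hx }
    have hWc' : Nat.card W' ≤ 8 := hWc
    obtain ⟨χ', hχ, hχ'⟩ := hMX W' hWc' (fun x => φ (Additive.ofMul x))
      (fun y => f (Additive.ofMul y)) (fun a b => by
        show φ (Additive.ofMul (a * b)) = _
        rw [ofMul_mul, map_add]) (fun a b => by
        show f (Additive.ofMul (a * b)) = _
        rw [ofMul_mul, map_add]) (by
        intro a ha b hab
        show φ (Additive.ofMul a) * f (Additive.ofMul b) = 0
        by_cases h0 : φ (Additive.ofMul a) = 0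
        · rw [h0, zero_mul]
        · rw [hW _ ha h0 (Additive.ofMul b) hab, mul_zero])
    obtain ⟨ω, hω, hω'⟩ := BRI_form hχ
    refine ⟨ω, hω, fun w hw => ?_⟩
    ext b
    rw [hω', hχ' w.toMul hw]
    rfl
  -- the forms detect the zeros of `q`
  have hdet : ∀ a b : Additive S.G, (∀ ω ∈ BRI_A S, ω a b = 0) →
      S.q a.toMul b.toMul = S.zero := by
    intro a b hab
    by_contra hne
    let K : Submodule (ZMod 2) (Additive S.G) :=
      AddSubgroup.toZModSubmodule 2
        { carrier := {y : Additive S.G | S.q a.toMul y.toMul = S.zero}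
          add_mem' := fun {x y} hx hy => qmul _ _ _ hx hy
          zero_mem' := q1 _
          neg_mem' := fun {x} hx => by
            have : -x = x := by
              rw [neg_eq_iff_add_eq_zero]; exact vadd x
            rw [this]; exact hx }
    have hbK : b ∉ K := hne
    obtain ⟨f, hf1, hf2⟩ := Submodule.exists_le_ker_of_notMem hbK
    have ha0 : a ≠ 0 := by
      rintro rfl
      apply hne
      rw [hS.qs2]
      exact q1 _
    obtain ⟨φ, hφ⟩ := exists_ne_one ha0
    obtain ⟨ω, hω, hω'⟩ := hext (Submodule.span (ZMod 2) {a})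
      (card_span_three 0 a a _ (le_sup_of_le_right (Submodule.span_mono (by simp)))) φ f (by
      intro w hw hφw y hy
      rcases span_one_mem.1 hw with rfl | rfl
      · exact absurd (map_zero φ) hφw
      · exact hf2 hy)
    have h1 := hab ω hω
    rw [hω' a (Submodule.mem_span_singleton_self a), hφ, one_smul] at h1
    exact hf1 h1
  -- extension in terms of the family
  have hPE : ∀ W : Submodule (ZMod 2) (Additive S.G), Nat.card W ≤ 8 → PE (BRI_A S) W := by
    intro W hW φ f h
    refine hext W hW φ f fun w hw hφ b hb => h w hw hφ b fun ω hω => hω w b hb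
  have hL : Linked (BRI_A S) := by
    have h1 := linked_of_PE halt ⊤ (by
      intro a c
      apply hPE
      apply card_span_three 0 a c
      rw [Submodule.dualCoannihilator_top]
      simp)
    rwa [res_top] at h1
  have hLu : ∀ u : Additive S.G, Linked (res (BRI_A S) (ann u)) := by
    intro u
    refine linked_of_PE halt (ann u) ?_
    intro a c
    apply hPE
    apply card_span_three u a c
    refine sup_le_sup_right ?_ _
    intro v hv
    by_contra hcon
    obtain ⟨g, hg1, hg2⟩ := Submodule.exists_le_ker_of_notMem hcon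
    rw [Submodule.mem_dualCoannihilator] at hv
    refine hg1 (hv g ?_)
    exact hg2 (Submodule.mem_span_singleton_self u)
  exact over_of_linked hS hfin (rel_single hS u) (hLu (Additive.ofMul u))

/-- the inductive step for structures with additive quaternions in terms of the `S_u` -/
theorem step_over (S : QData) (hS : IsQuat S) (hfin : Finite S.G) (hMX : ProductsExtend 4 S)
    (hO : ∀ u, IsQuat (modU S (Subgroup.zpowers u)))
    (IH : ∀ T : QData, IsQuat T → Finite T.G → AddQuat T → Nat.card T.G < Nat.card S.G → Elem T) :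
    Elem S := by
  classical
  obtain ⟨hcore, hPL, hout, hconv⟩ := Pool.Agent.W622.ETG.all_parts
  let _ : Module (ZMod 2) (Additive S.G) := AddCommGroup.zmodModule (n := 2) (by
    intro x
    rw [two_smul]
    exact hS.exp2 x.toMul)
  have : Finite (Additive S.G) := hfin
  -- facts on `q`
  have q1 : ∀ a, S.q a 1 = S.zero := by
    intro a
    have := (hS.qs3 a 1 1).1 rfl
    rwa [mul_one] at this
  have qmul : ∀ a b c, S.q a b = S.zero → S.q a c = S.zero → S.q a (b * c) = S.zero := by
    intro a b c h1 h2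
    exact (hS.qs3 a b c).1 (h1.trans h2.symm)
  set e : Additive S.G := Additive.ofMul S.neg with he
  have hsq : ∀ ω ∈ BRI_A S, ∀ a : Additive S.G, ω a a = ω a e := by
    intro ω hω a
    have h1 : ω a (e + a) = 0 := hω a (e + a) (hS.qs1 a.toMul)
    rw [map_add] at h1
    exact (Pool.Agent.W622.ETC.add_eq_zero'.1 h1).symm
  have halt : EFam e (BRI_A S) := by
    intro ω hω
    refine ⟨fun a b => ?_, hsq ω hω⟩
    have h1 := hsq ω hω (a + b)
    simp only [map_add, LinearMap.add_apply] at h1
    rw [hsq ω hω a, hsq ω hω b] at h1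
    have h2 : ω a b + ω b a = 0 := by linear_combination h1
    exact Pool.Agent.W622.ETC.add_eq_zero'.1 h2
  -- extension of symbols given by a product
  have hext : ∀ (W : Submodule (ZMod 2) (Additive S.G)), Nat.card W ≤ 4 →
      ∀ (φ f : Dl (Additive S.G)),
      (∀ w ∈ W, φ w ≠ 0 → ∀ b : Additive S.G, S.q w.toMul b.toMul = S.zero → f b = 0) →
      ∃ ω ∈ BRI_A S, ∀ w ∈ W, ω w = φ w • f := by
    intro W hWc φ f hW
    let W' : Subgroup S.G :=
      { carrier := {x | Additive.ofMul x ∈ W}
        mul_mem' := fun {x y} hx hy => W.add_mem hx hy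
        one_mem' := W.zero_mem
        inv_mem' := fun {x} hx => W.neg_mem hx }
    have hWc' : Nat.card W' ≤ 4 := hWc
    obtain ⟨χ', hχ, hχ'⟩ := hMX W' hWc' (fun x => φ (Additive.ofMul x))
      (fun y => f (Additive.ofMul y)) (fun a b => by
        show φ (Additive.ofMul (a * b)) = _
        rw [ofMul_mul, map_add]) (fun a b => by
        show f (Additive.ofMul (a * b)) = _
        rw [ofMul_mul, map_add]) (by
        intro a ha b hab
        show φ (Additive.ofMul a) * f (Additive.ofMul b) = 0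
        by_cases h0 : φ (Additive.ofMul a) = 0
        · rw [h0, zero_mul]
        · rw [hW _ ha h0 (Additive.ofMul b) hab, mul_zero])
    obtain ⟨ω, hω, hω'⟩ := BRI_form (χ := χ') (S := S) ⟨fun a _ b _ c => hχ.1 a b c,
      fun a _ b c => hχ.2.1 a b c, fun a _ b => hχ.2.2 a b⟩
    refine ⟨ω, hω, fun w hw => ?_⟩
    ext b
    rw [hω', hχ' w.toMul hw]
    rfl
  -- the forms detect the zeros of `q`
  have hdet : ∀ a b : Additive S.G, (∀ ω ∈ BRI_A S, ω a b = 0) →
      S.q a.toMul b.toMul = S.zero := by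
    intro a b hab
    by_contra hne
    let K : Submodule (ZMod 2) (Additive S.G) :=
      AddSubgroup.toZModSubmodule 2
        { carrier := {y : Additive S.G | S.q a.toMul y.toMul = S.zero}
          add_mem' := fun {x y} hx hy => qmul _ _ _ hx hy
          zero_mem' := q1 _
          neg_mem' := fun {x} hx => by
            have : -x = x := by
              rw [neg_eq_iff_add_eq_zero]; exact vadd x
            rw [this]; exact hx }
    have hbK : b ∉ K := hne
    obtain ⟨f, hf1, hf2⟩ := Submodule.exists_le_ker_of_notMem hbK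
    have ha0 : a ≠ 0 := by
      rintro rfl
      apply hne
      rw [hS.qs2]
      exact q1 _
    obtain ⟨φ, hφ⟩ := exists_ne_one ha0
    obtain ⟨ω, hω, hω'⟩ := hext (Submodule.span (ZMod 2) {a})
      (card_span_two a a _ (Submodule.span_mono (by simp))) φ f (by
      intro w hw hφw y hy
      rcases span_one_mem.1 hw with rfl | rfl
      · exact absurd (map_zero φ) hφw
      · exact hf2 hy)
    have h1 := hab ω hω
    rw [hω' a (Submodule.mem_span_singleton_self a), hφ, one_smul] at h1
    exact hf1 h1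
  -- extension in terms of the family
  have hPE : ∀ W : Submodule (ZMod 2) (Additive S.G), Nat.card W ≤ 4 → PE (BRI_A S) W := by
    intro W hW φ f h
    refine hext W hW φ f fun w hw hφ b hb => h w hw hφ b fun ω hω => hω w b hb
  have hL : Linked (BRI_A S) := by
    have h1 := linked_of_PE halt ⊤ (by
      intro a c
      apply hPE
      apply card_span_two a c
      rw [Submodule.dualCoannihilator_top]
      simp)
    rwa [res_top] at h1
  have hLu : ∀ u : Additive S.G, Linked (res (BRI_A S) (ann u)) := fun u =>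
    linked_of_over (rel_single hS u.toMul) (hO u.toMul)
  have hcl : Closed (BRI_A S) := by
    intro ω hω a b hab
    exact hω a b fun η hη => hη a b hab
  have hHu : ∀ u : Additive S.G, u ≠ 0 → Hered (res (BRI_A S) (ann u)) := by
    intro u hu
    refine hered_quot' hPL hconv halt hcl hu (hLu u) ?_
    intro T hT hTf hTA hTc
    exact IH T hT hTf hTA hTc
  have hher : Hered (BRI_A S) := by
    intro X
    by_cases hX : X = ⊤
    · rw [hX, res_top]
      exact hL
    · obtain ⟨u, hu, hXu⟩ := exists_ann hX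
      have h1 := hHu u hu X
      rwa [res_res_of_le _ hXu] at h1
  -- equality of quaternions
  have heq : ∀ a b c d : Additive S.G, (∀ ω ∈ BRI_A S, ω a b = ω c d) ↔
      S.q a.toMul b.toMul = S.q c.toMul d.toMul := by
    intro a b c d
    constructor
    · intro h
      obtain ⟨z, h1, h2, h3⟩ := hPL (Additive S.G) e (BRI_A S) halt hher.linked a c b d h
      have e1 := (hS.qs3 a.toMul b.toMul z.toMul).2 (hdet a (b + z) h1)
      have e2 := (hS.qs3 c.toMul d.toMul z.toMul).2 (hdet c (d + z) h2)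
      have e3 := hdet (a + c) z h3
      rw [hS.qs2] at e3
      have e4 := (hS.qs3 z.toMul a.toMul c.toMul).2 e3
      rw [e1, e2, hS.qs2 a.toMul, hS.qs2 c.toMul, e4]
    · intro h ω hω
      obtain ⟨x, hx1, hx2⟩ := hS.qs4 _ _ _ _ h
      have e1 : ω a (b + Additive.ofMul x) = 0 := hω _ _ ((hS.qs3 _ _ _).1 hx1)
      have e2 : ω c (d + Additive.ofMul x) = 0 := hω _ _ ((hS.qs3 _ _ _).1 hx2)
      have e3 : S.q x a.toMul = S.q x c.toMul := by
        rw [hS.qs2 x, hS.qs2 x, ← hx1, ← hx2, h]
      have e4 : ω (Additive.ofMul x) (a + c) = 0 := hω _ _ ((hS.qs3 _ _ _).1 e3)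
      rw [map_add] at e1 e2 e4
      have f1 := Pool.Agent.W622.ETC.add_eq_zero'.1 e1
      have f2 := Pool.Agent.W622.ETC.add_eq_zero'.1 e2
      have f4 := Pool.Agent.W622.ETC.add_eq_zero'.1 e4
      rw [f1, f2, (halt ω hω).symm, f4, (halt ω hω).symm]
  have hElem : Elem (QD e (BRI_A S)) := hout _ _ _ (hcore _ _ _ halt hher)
  refine Elem.iso _ _ hElem ⟨MulEquiv.multiplicativeAdditive S.G, rfl, ?_⟩
  intro a b c d
  rw [QD_eq]
  exact heq a.toAdd b.toAdd c.toAdd d.toAdd


/-- `S` is of elementary type if its quaternions add up and all `S_U` are quaternionic -/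
theorem elem_of_over (S : QData) (hS : IsQuat S) (hfin : Finite S.G) (hMX : ProductsExtend 4 S)
    (hO : ∀ U, IsQuat (modU S U)) : Elem S := by
  classical
  obtain ⟨hcore, hPL, hout, -⟩ := Pool.Agent.W622.ETG.all_parts
  let _ : Module (ZMod 2) (Additive S.G) := AddCommGroup.zmodModule (n := 2) (by
    intro x
    rw [two_smul]
    exact hS.exp2 x.toMul)
  have : Finite (Additive S.G) := hfin
  -- facts on `q`
  have q1 : ∀ a, S.q a 1 = S.zero := by
    intro a
    have := (hS.qs3 a 1 1).1 rfl
    rwa [mul_one] at this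
  have qmul : ∀ a b c, S.q a b = S.zero → S.q a c = S.zero → S.q a (b * c) = S.zero := by
    intro a b c h1 h2
    exact (hS.qs3 a b c).1 (h1.trans h2.symm)
  set e : Additive S.G := Additive.ofMul S.neg with he
  have hsq : ∀ ω ∈ BRI_A S, ∀ a : Additive S.G, ω a a = ω a e := by
    intro ω hω a
    have h1 : ω a (e + a) = 0 := hω a (e + a) (hS.qs1 a.toMul)
    rw [map_add] at h1
    exact (Pool.Agent.W622.ETC.add_eq_zero'.1 h1).symm
  have halt : EFam e (BRI_A S) := by
    intro ω hω
    refine ⟨fun a b => ?_, hsq ω hω⟩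
    have h1 := hsq ω hω (a + b)
    simp only [map_add, LinearMap.add_apply] at h1
    rw [hsq ω hω a, hsq ω hω b] at h1
    have h2 : ω a b + ω b a = 0 := by linear_combination h1
    exact Pool.Agent.W622.ETC.add_eq_zero'.1 h2
  -- extension of symbols given by a product
  have hext : ∀ (W : Submodule (ZMod 2) (Additive S.G)), Nat.card W ≤ 4 →
      ∀ (φ f : Dl (Additive S.G)),
      (∀ w ∈ W, φ w ≠ 0 → ∀ b : Additive S.G, S.q w.toMul b.toMul = S.zero → f b = 0) →
      ∃ ω ∈ BRI_A S, ∀ w ∈ W, ω w = φ w • f := by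
    intro W hWc φ f hW
    let W' : Subgroup S.G :=
      { carrier := {x | Additive.ofMul x ∈ W}
        mul_mem' := fun {x y} hx hy => W.add_mem hx hy
        one_mem' := W.zero_mem
        inv_mem' := fun {x} hx => W.neg_mem hx }
    have hWc' : Nat.card W' ≤ 4 := hWc
    obtain ⟨χ', hχ, hχ'⟩ := hMX W' hWc' (fun x => φ (Additive.ofMul x))
      (fun y => f (Additive.ofMul y)) (fun a b => by
        show φ (Additive.ofMul (a * b)) = _
        rw [ofMul_mul, map_add]) (fun a b => by
        show f (Additive.ofMul (a * b)) = _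
        rw [ofMul_mul, map_add]) (by
        intro a ha b hab
        show φ (Additive.ofMul a) * f (Additive.ofMul b) = 0
        by_cases h0 : φ (Additive.ofMul a) = 0
        · rw [h0, zero_mul]
        · rw [hW _ ha h0 (Additive.ofMul b) hab, mul_zero])
    obtain ⟨ω, hω, hω'⟩ := BRI_form (χ := χ') (S := S) ⟨fun a _ b _ c => hχ.1 a b c,
      fun a _ b c => hχ.2.1 a b c, fun a _ b => hχ.2.2 a b⟩
    refine ⟨ω, hω, fun w hw => ?_⟩
    ext b
    rw [hω', hχ' w.toMul hw]
    rfl
  -- the forms detect the zeros of `q`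
  have hdet : ∀ a b : Additive S.G, (∀ ω ∈ BRI_A S, ω a b = 0) →
      S.q a.toMul b.toMul = S.zero := by
    intro a b hab
    by_contra hne
    let K : Submodule (ZMod 2) (Additive S.G) :=
      AddSubgroup.toZModSubmodule 2
        { carrier := {y : Additive S.G | S.q a.toMul y.toMul = S.zero}
          add_mem' := fun {x y} hx hy => qmul _ _ _ hx hy
          zero_mem' := q1 _
          neg_mem' := fun {x} hx => by
            have : -x = x := by
              rw [neg_eq_iff_add_eq_zero]; exact vadd x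
            rw [this]; exact hx }
    have hbK : b ∉ K := hne
    obtain ⟨f, hf1, hf2⟩ := Submodule.exists_le_ker_of_notMem hbK
    have ha0 : a ≠ 0 := by
      rintro rfl
      apply hne
      rw [hS.qs2]
      exact q1 _
    obtain ⟨φ, hφ⟩ := exists_ne_one ha0
    obtain ⟨ω, hω, hω'⟩ := hext (Submodule.span (ZMod 2) {a})
      (card_span_two a a _ (Submodule.span_mono (by simp))) φ f (by
      intro w hw hφw y hy
      rcases span_one_mem.1 hw with rfl | rfl
      · exact absurd (map_zero φ) hφw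
      · exact hf2 hy)
    have h1 := hab ω hω
    rw [hω' a (Submodule.mem_span_singleton_self a), hφ, one_smul] at h1
    exact hf1 h1
  -- extension in terms of the family
  have hPE : ∀ W : Submodule (ZMod 2) (Additive S.G), Nat.card W ≤ 4 → PE (BRI_A S) W := by
    intro W hW φ f h
    refine hext W hW φ f fun w hw hφ b hb => h w hw hφ b fun ω hω => hω w b hb
  have hL : Linked (BRI_A S) := by
    have h1 := linked_of_PE halt ⊤ (by
      intro a c
      apply hPE
      apply card_span_two a c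
      rw [Submodule.dualCoannihilator_top]
      simp)
    rwa [res_top] at h1
  have hher : Hered (BRI_A S) := fun X => linked_of_over (rel_zeroX hS hfin X) (hO (zeroX X))
  -- equality of quaternions
  have heq : ∀ a b c d : Additive S.G, (∀ ω ∈ BRI_A S, ω a b = ω c d) ↔
      S.q a.toMul b.toMul = S.q c.toMul d.toMul := by
    intro a b c d
    constructor
    · intro h
      obtain ⟨z, h1, h2, h3⟩ := hPL (Additive S.G) e (BRI_A S) halt hher.linked a c b d h
      have e1 := (hS.qs3 a.toMul b.toMul z.toMul).2 (hdet a (b + z) h1)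
      have e2 := (hS.qs3 c.toMul d.toMul z.toMul).2 (hdet c (d + z) h2)
      have e3 := hdet (a + c) z h3
      rw [hS.qs2] at e3
      have e4 := (hS.qs3 z.toMul a.toMul c.toMul).2 e3
      rw [e1, e2, hS.qs2 a.toMul, hS.qs2 c.toMul, e4]
    · intro h ω hω
      obtain ⟨x, hx1, hx2⟩ := hS.qs4 _ _ _ _ h
      have e1 : ω a (b + Additive.ofMul x) = 0 := hω _ _ ((hS.qs3 _ _ _).1 hx1)
      have e2 : ω c (d + Additive.ofMul x) = 0 := hω _ _ ((hS.qs3 _ _ _).1 hx2)
      have e3 : S.q x a.toMul = S.q x c.toMul := by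
        rw [hS.qs2 x, hS.qs2 x, ← hx1, ← hx2, h]
      have e4 : ω (Additive.ofMul x) (a + c) = 0 := hω _ _ ((hS.qs3 _ _ _).1 e3)
      rw [map_add] at e1 e2 e4
      have f1 := Pool.Agent.W622.ETC.add_eq_zero'.1 e1
      have f2 := Pool.Agent.W622.ETC.add_eq_zero'.1 e2
      have f4 := Pool.Agent.W622.ETC.add_eq_zero'.1 e4
      rw [f1, f2, (halt ω hω).symm, f4, (halt ω hω).symm]
  have hElem : Elem (QD e (BRI_A S)) := hout _ _ _ (hcore _ _ _ halt hher)
  refine Elem.iso _ _ hElem ⟨MulEquiv.multiplicativeAdditive S.G, rfl, ?_⟩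
  intro a b c d
  rw [QD_eq]
  exact heq a.toAdd b.toAdd c.toAdd d.toAdd


/-- if `S` is of elementary type, all `S_U` are quaternionic structures -/
theorem over_of_elem (S : QData) (hS : IsQuat S) (hfin : Finite S.G) (hE : Elem S)
    (U : Subgroup S.G) : IsQuat (modU S U) := by
  classical
  let _ : Module (ZMod 2) (Additive S.G) := AddCommGroup.zmodModule (n := 2) (by
    intro x
    rw [two_smul]
    exact hS.exp2 x.toMul)
  have : Finite (Additive S.G) := hfin
  have hPE : ∀ W : Submodule (ZMod 2) (Additive S.G), PE (BRI_A S) W := by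
    intro W φ f hW
    let W' : Subgroup S.G :=
      { carrier := {x | Additive.ofMul x ∈ W}
        mul_mem' := fun {x y} hx hy => W.add_mem hx hy
        one_mem' := W.zero_mem
        inv_mem' := fun {x} hx => W.neg_mem hx }
    obtain ⟨χ', hχ, hχ'⟩ := products_of_elem hS hE (Nat.card W') W' le_rfl
      (fun x => φ (Additive.ofMul x))
      (fun y => f (Additive.ofMul y)) (fun a b => by
        show φ (Additive.ofMul (a * b)) = _
        rw [ofMul_mul, map_add]) (fun a b => by
        show f (Additive.ofMul (a * b)) = _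
        rw [ofMul_mul, map_add]) (by
        intro a ha b hab
        show φ (Additive.ofMul a) * f (Additive.ofMul b) = 0
        by_cases h0 : φ (Additive.ofMul a) = 0
        · rw [h0, zero_mul]
        · rw [hW _ ha h0 (Additive.ofMul b) (fun ω hω => hω _ _ hab), mul_zero])
    obtain ⟨ω, hω, hω'⟩ := form_of_sym hχ
    refine ⟨ω, hω, fun w hw => ?_⟩
    ext b
    rw [hω', hχ' w.toMul hw]
    rfl
  exact over_of_linked hS hfin (rel_annU hS U)
    (linked_of_PE (efam hS) _ fun a c => hPE _)

theorem isQuat_fam {G : Type} [CommGroup G] (neg : G) (P P' : (G → G → ZMod 2) → Prop)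
    (h : ∀ χ, P χ ↔ P' χ)
    (hI : IsQuat ⟨G, {χ // P χ} → ZMod 2, neg, fun a b χ => χ.1 a b, fun _ => 0⟩) :
    IsQuat ⟨G, {χ // P' χ} → ZMod 2, neg, fun a b χ => χ.1 a b, fun _ => 0⟩ := by
  have : P = P' := funext fun χ => propext (h χ)
  subst this
  exact hI

theorem sym_modU {S : QData} {U : Subgroup S.G} {χ : S.G → S.G → ZMod 2} :
    Sym (modU S U) χ ↔ Sym S χ ∧ ∀ u ∈ U, ∀ x, χ u x = 0 := by
  constructor
  · intro hχ
    refine ⟨⟨hχ.1, hχ.2.1, fun x y hxy => hχ.2.2 x y ?_⟩, fun u hu x => hχ.2.2 u x ?_⟩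
    · show (fun (χ : {χ : S.G → S.G → ZMod 2 // Sym S χ ∧ ∀ u ∈ U, ∀ x, χ u x = 0}) =>
        χ.1 x y) = fun _ => 0
      funext ψ
      exact ψ.2.1.2.2 x y hxy
    · show (fun (χ : {χ : S.G → S.G → ZMod 2 // Sym S χ ∧ ∀ u ∈ U, ∀ x, χ u x = 0}) =>
        χ.1 u x) = fun _ => 0
      funext ψ
      exact ψ.2.2 u hu x
  · intro h
    exact ⟨h.1.1, h.1.2.1, fun a b hab => congrFun hab ⟨χ, h⟩⟩

/-- if `S` is of elementary type, so are all `S_U` -/
theorem elem_modU (S : QData) (hS : IsQuat S) (hfin : Finite S.G) (hE : Elem S)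
    (U : Subgroup S.G) : Elem (modU S U) := by
  have hQ := over_of_elem S hS hfin hE
  refine elem_of_over (modU S U) (hQ U) hfin
    (products_four_of_pair (hQ U) hfin (pair_of_add (hQ U) (addQuat_over S U))) ?_
  intro (U' : Subgroup S.G)
  refine isQuat_fam (G := S.G) S.neg (fun χ => Sym S χ ∧ ∀ u ∈ U ⊔ U', ∀ x, χ u x = 0)
    (fun χ => Sym (modU S U) χ ∧ ∀ u ∈ U', ∀ x, χ u x = 0) ?_ (hQ (U ⊔ U'))
  intro χ
  constructor
  · rintro ⟨h1, h2⟩
    exact ⟨sym_modU.2 ⟨h1, fun u hu => h2 u (le_sup_left (a := U) (b := U') hu)⟩,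
      fun u hu => h2 u (le_sup_right (a := U) (b := U') hu)⟩
  · rintro ⟨h1, h2⟩
    obtain ⟨h3, h4⟩ := sym_modU.1 h1
    refine ⟨h3, ?_⟩
    let R : Subgroup S.G :=
      { carrier := {u | ∀ x, χ u x = 0}
        mul_mem' := fun {a b} ha hb x => by rw [h3.1, ha x, hb x, add_zero]
        one_mem' := fun x => hom_one (f := fun a => χ a x) (fun a b => h3.1 a b x)
        inv_mem' := fun {a} ha x => by
          have : a⁻¹ = a := inv_eq_of_mul_eq_one_left (hS.exp2 a)
          rw [this]
          exact ha x }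
    have hle : U ⊔ U' ≤ R := sup_le h4 h2
    exact fun u hu => hle hu

end Pool.Agent.HP953.EH
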